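import Pool.Agent.PTL.Table

/-!
# Words given by loops over all tuples below some bounds that pass a test
-/

set_option autoImplicit false

namespace Pool.Agent.PTL

/-- All lists below the bounds. -/
def box : List ℕ → List (List ℕ)
  | [] => [[]]
  | b :: bs => (List.range b).flatMap fun v => (box bs).map (v :: ·)

theorem mem_box : ∀ {bs l : List ℕ}, l ∈ box bs ↔ Below bs l
  | [], [] => by simp [box, Below]
  | [], _ :: _ => by simp [box, Below]
  | _ :: _, [] => by simp [box, Below]
  | b :: bs, v :: l => by
    simp only [box, List.mem_flatMap, List.mem_range, List.mem_map, List.cons.injEq, Below]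
    constructor
    · rintro ⟨v', hv', l', hl', rfl, rfl⟩
      exact ⟨hv', mem_box.1 hl'⟩
    · rintro ⟨hv, hl⟩
      exact ⟨v, hv, l, mem_box.2 hl, rfl, rfl⟩

theorem nodup_box : ∀ bs : List ℕ, (box bs).Nodup
  | [] => by simp [box]
  | b :: bs => by
    rw [box, List.nodup_flatMap]
    refine ⟨fun v _ => (nodup_box bs).map fun _ _ h => (List.cons.inj h).2, ?_⟩
    refine List.Pairwise.imp (R := (· ≠ ·)) ?_ List.nodup_range
    intro a b hab
    show List.Disjoint _ _
    intro l hl hl'
    obtain ⟨_, _, rfl⟩ := List.mem_map.1 hl
    obtain ⟨_, _, h⟩ := List.mem_map.1 hl'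
    exact hab (List.cons.inj h).1.symm

/-- Loop over a box. -/
theorem IsP.box (bs : List ((ℕ → ℕ) → ℕ)) : ∀ (k : ℕ), (∀ b ∈ bs, IsE k b) →
    ∀ {G : List Bool → (ℕ → ℕ) → List ℕ → List Bool},
    (∀ k', k ≤ k' → ∀ ys : List ((ℕ → ℕ) → ℕ), ys.length = bs.length → (∀ y ∈ ys, IsE k' y) →
      IsP k' (fun w env => G w env (ys.map (· env)))) →
    IsP k (fun w env => (PTL.box (bs.map (· env))).flatMap fun l => G w env l) := by
  induction bs with
  | nil =>
    intro k _ G h
    exact (h k le_rfl [] rfl (by simp)).congr fun w env => by simp [PTL.box]
  | cons b bs ih =>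
    intro k hb G h
    have := IsP.loop (G := fun w env v => (PTL.box (bs.map (· env))).flatMap fun l =>
      G w env (v :: l)) (hb b (by simp)) fun k' hk y hy => by
        refine ih k' (fun b hb' => (hb b (by simp [hb'])).mono hk)
          (G := fun w env l => G w env (y env :: l)) fun k'' hk' ys hys hy' => ?_
        exact h k'' (hk.trans hk') (y :: ys) (by simp [hys]) (by
          intro z hz
          rcases List.mem_cons.1 hz with rfl | hz
          · exact hy.mono hk'
          · exact hy' z hz)
    refine this.congr fun w env => ?_
    simp only [List.map_cons, PTL.box, List.flatMap_assoc, List.flatMap_map]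

open Classical in
/-- Loop over the elements of a box that pass a test. -/
theorem IsP.filterBox (bs : List ((ℕ → ℕ) → ℕ)) (k : ℕ) (hbs : ∀ b ∈ bs, IsE k b)
    {φ : List Bool → (ℕ → ℕ) → List ℕ → Prop}
    (hφ : ∀ k', k ≤ k' → ∀ ys : List ((ℕ → ℕ) → ℕ), ys.length = bs.length → (∀ y ∈ ys, IsE k' y) →
      IsT k' (fun w env => φ w env (ys.map (· env))))
    {G : List Bool → (ℕ → ℕ) → List ℕ → List Bool}
    (hG : ∀ k', k ≤ k' → ∀ ys : List ((ℕ → ℕ) → ℕ), ys.length = bs.length → (∀ y ∈ ys, IsE k' y) →
      IsP k' (fun w env => G w env (ys.map (· env)))) :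
    IsP k (fun w env => ((PTL.box (bs.map (· env))).filter fun l => decide (φ w env l)).flatMap
      fun l => G w env l) := by
  refine (IsP.box bs k hbs (G := fun w env l => if φ w env l then G w env l else [])
    fun k' hk ys hys hy => IsP.ite (hφ k' hk ys hys hy) (hG k' hk ys hys hy) IsP.nil).congr
    fun w env => ?_
  generalize PTL.box (bs.map (· env)) = L
  induction L with
  | nil => rfl
  | cons a L ih =>
    rw [List.filter_cons, List.flatMap_cons, ← ih]
    by_cases h : φ w env a <;> simp [h]

open Classical in
/-- The code of a family of relations (`s < t`) on the elements of a list. -/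
noncomputable def enc {α : Type*} (t : ℕ) (L : List α) (R : α → α → ℕ → Prop) : List Bool :=
  L.map (fun _ => true) ++ false :: L.flatMap fun u => L.flatMap fun v =>
    (List.range t).map fun s => decide (R u v s)

open Classical in
/-- The code of relations on the elements of a box that pass a test, where the relations are also
given by tests. -/
theorem IsP.enc (t : ℕ) (bs : List ((ℕ → ℕ) → ℕ)) (k : ℕ) (hbs : ∀ b ∈ bs, IsE k b)
    {φ : List Bool → (ℕ → ℕ) → List ℕ → Prop}
    (hφ : ∀ k', k ≤ k' → ∀ ys : List ((ℕ → ℕ) → ℕ), ys.length = bs.length → (∀ y ∈ ys, IsE k' y) →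
      IsT k' (fun w env => φ w env (ys.map (· env))))
    {R : List Bool → (ℕ → ℕ) → List ℕ → List ℕ → ℕ → Prop}
    (hR : ∀ k', k ≤ k' → ∀ xs ys : List ((ℕ → ℕ) → ℕ), xs.length = bs.length →
      ys.length = bs.length → (∀ x ∈ xs, IsE k' x) → (∀ y ∈ ys, IsE k' y) → ∀ z, IsE k' z →
      IsT k' (fun w env => R w env (xs.map (· env)) (ys.map (· env)) (z env))) :
    IsP k (fun w env => PTL.enc t ((PTL.box (bs.map (· env))).filter fun l => decide (φ w env l))
      (R w env)) := by
  have h1 : IsP k (fun w env => ((PTL.box (bs.map (· env))).filter fun l =>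
      decide (φ w env l)).flatMap fun _ => [true]) :=
    IsP.filterBox bs k hbs hφ (G := fun _ _ _ => [true]) fun _ _ _ _ _ => IsP.emit true
  have h2 : IsP k (fun w env => ((PTL.box (bs.map (· env))).filter fun l =>
      decide (φ w env l)).flatMap fun u => ((PTL.box (bs.map (· env))).filter fun l =>
      decide (φ w env l)).flatMap fun v => (List.range t).flatMap fun s =>
        [decide (R w env u v s)]) := by
    refine IsP.filterBox bs k hbs hφ (G := fun w env u => ((PTL.box (bs.map (· env))).filter
      fun l => decide (φ w env l)).flatMap fun v => (List.range t).flatMap fun s =>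
        [decide (R w env u v s)]) fun k' hk xs hxs hx => ?_
    refine IsP.filterBox bs k' (fun b hb => (hbs b hb).mono hk)
      (fun k'' hk' => hφ k'' (hk.trans hk')) (G := fun w env v => (List.range t).flatMap fun s =>
        [decide (R w env (xs.map (· env)) v s)]) fun k'' hk' ys hys hy => ?_
    refine IsP.loop (f := fun _ => t) (IsE.const t) (G := fun w env s =>
        [decide (R w env (xs.map (· env)) (ys.map (· env)) s)]) fun k''' hk'' z hz => ?_
    exact IsP.dec (hR k''' ((hk.trans hk').trans hk'') xs ys hxs hys
      (fun x h => (hx x h).mono (hk'.trans hk'')) (fun y h => (hy y h).mono hk'') z hz)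
  refine (h1.append (IsP.cons false h2)).congr fun w env => ?_
  simp only [PTL.enc, List.map_eq_flatMap]

theorem enc_length {α : Type*} (t : ℕ) (L : List α) (R : α → α → ℕ → Prop) :
    (enc t L R).length = L.length + 1 + L.length * L.length * t := by
  simp only [enc, List.length_append, List.length_map, List.length_cons, List.length_flatMap,
    List.length_range, List.map_const', List.length_replicate, List.sum_replicate, smul_eq_mul]
  ring

theorem list_flatMap_getD {β : Type*} (P : ℕ) (g : β → List Bool) (hg : ∀ v, (g v).length = P) :
    ∀ (L : List β) (a i : ℕ) (ha : a < L.length), i < P →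
      (L.flatMap g).getD (a * P + i) false = (g L[a]).getD i false := by
  intro L
  induction L with
  | nil => intro a i ha; simp at ha
  | cons v L ih =>
    intro a i ha hi
    rw [List.flatMap_cons]
    cases a with
    | zero =>
      rw [List.getD_append _ _ _ _ (by rw [hg]; omega)]
      simp
    | succ a =>
      have ha' : a < L.length := by simpa using ha
      rw [List.getD_append_right _ _ _ _ (by rw [hg]; nlinarith), hg]
      have : (a + 1) * P + i - P = a * P + i := by
        rw [add_mul, one_mul]
        omega
      rw [this, ih a i ha' hi]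
      rfl

/-- Reading a bit of the code. -/
theorem enc_getD {α : Type*} (t : ℕ) (L : List α) (R : α → α → ℕ → Prop) {a b s : ℕ}
    (ha : a < L.length) (hb : b < L.length) (hs : s < t) :
    (enc t L R).getD (L.length + 1 + ((a * L.length + b) * t + s)) false = true ↔
      R L[a] L[b] s := by
  classical
  have hin : b * t + s < L.length * t := by
    have h2 : (b + 1) * t ≤ L.length * t := Nat.mul_le_mul_right _ hb
    rw [add_mul, one_mul] at h2
    omega
  unfold enc
  rw [List.getD_append_right _ _ _ _ (by simp; omega), List.length_map,
    show L.length + 1 + ((a * L.length + b) * t + s) - L.length =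
      ((a * L.length + b) * t + s) + 1 by omega, List.getD_cons_succ,
    show (a * L.length + b) * t + s = a * (L.length * t) + (b * t + s) by ring,
    list_flatMap_getD (L.length * t) _ (fun v => by simp [List.length_flatMap]) L a _ ha hin,
    list_flatMap_getD t _ (fun v => by simp) L b _ hb hs]
  simp [hs]

theorem enc_congr {α : Type*} {t : ℕ} {L : List α} {R R' : α → α → ℕ → Prop}
    (h : ∀ u ∈ L, ∀ v ∈ L, ∀ s < t, (R u v s ↔ R' u v s)) : enc t L R = enc t L R' := by
  classical
  unfold enc
  congr 2
  apply List.flatMap_congr
  intro u hu
  apply List.flatMap_congr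
  intro v hv
  apply List.map_congr_left
  intro s hs
  simp only [h u hu v hv s (List.mem_range.1 hs)]

theorem enc_map {α β : Type*} {t : ℕ} (f : α → β) (L : List α) (R : β → β → ℕ → Prop) :
    enc t (L.map f) R = enc t L fun u v s => R (f u) (f v) s := by
  classical
  simp only [enc, List.map_map, List.flatMap_map]
  rfl

/-- The prefix of `w` from the position `s` is `n` in unary. -/
def Unary (w : List Bool) (s n : ℕ) : Prop :=
  (∀ i < n, w.getD (s + i) false = true) ∧ ¬ w.getD (s + n) false = true

theorem Unary.unique {w : List Bool} {s n n' : ℕ} (h : Unary w s n) (h' : Unary w s n') :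
    n = n' := by
  rcases lt_trichotomy n n' with hlt | he | hlt
  · exact absurd (h'.1 n hlt) h.2
  · exact he
  · exact absurd (h.1 n' hlt) h'.2

theorem unary_append (u v : List Bool) (n : ℕ) :
    Unary (u ++ (List.replicate n true ++ false :: v)) u.length n := by
  constructor
  · intro i hi
    rw [List.getD_append_right _ _ _ _ (by omega), Nat.add_sub_cancel_left,
      List.getD_append _ _ _ _ (by simpa using hi)]
    simp [hi]
  · rw [List.getD_append_right _ _ _ _ (by omega), Nat.add_sub_cancel_left,
      List.getD_append_right _ _ _ _ (by simp)]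
    simp

theorem isT_unary {k : ℕ} {s n : (ℕ → ℕ) → ℕ} (hs : IsE k s) (hn : IsE k n) :
    IsT k (fun w env => Unary w (s env) (n env)) :=
  (IsT.all hn fun _ h _ hy => IsT.bit ((hs.mono h).add hy)).and (IsT.bit (hs.add hn)).not

open Classical in
theorem flatMap_unique {α : Type*} {M n : ℕ} (hn : n < M) (P : ℕ → Prop) (hP : P n)
    (hu : ∀ n', P n' → n' = n) (G : ℕ → List α) :
    ((List.range M).flatMap fun n' => if P n' then G n' else []) = G n := by
  induction M with
  | zero => omega
  | succ M ih =>
    rw [List.range_succ, List.flatMap_append]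
    by_cases h : n = M
    · subst h
      have : ((List.range n).flatMap fun n' => if P n' then G n' else []) = [] := by
        rw [List.flatMap_eq_nil_iff]
        intro n' hn'
        rw [if_neg (fun e => by have := hu n' e; have := List.mem_range.1 hn'; omega)]
      rw [this]
      simp [hP]
    · rw [ih (by omega)]
      simp [show ¬ P M from fun e => h (hu M e).symm]

/-- Find the two parameters in unary at the start of the word. -/
theorem PTC.ofUnary {F : List Bool → ℕ → ℕ → List Bool}
    (h : ∀ k n m, IsE k n → IsE k m → IsP k (fun w env => F w (n env) (m env))) :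
    ∃ f, PTC f ∧ ∀ (n m : ℕ) (r w : List Bool),
      w = List.replicate n true ++ false :: (List.replicate m true ++ false :: r) →
        f w = F w n m := by
  classical
  refine ⟨fun w => (List.range (w.length + 1)).flatMap fun n => if Unary w 0 n then
    ((List.range (w.length + 1)).flatMap fun m => if Unary w (n + 1) m then F w n m else [])
      else [], ?_, ?_⟩
  · refine PTC.of (F := fun w L => (List.range (L + 1)).flatMap fun n => if Unary w 0 n then
      ((List.range (L + 1)).flatMap fun m => if Unary w (n + 1) m then F w n m else [])
      else []) fun k L hL => ?_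
    refine IsP.loop (f := fun env => L env + 1)
      (G := fun w env n => if Unary w 0 n then
      ((List.range (L env + 1)).flatMap fun m => if Unary w (n + 1) m then F w n m else [])
      else []) (hL.add (IsE.const 1)) fun k' hk n hn => ?_
    refine IsP.ite (isT_unary (IsE.const 0) hn) ?_ IsP.nil
    refine IsP.loop (f := fun env => L env + 1)
      (G := fun w env m => if Unary w (n env + 1) m then F w (n env) m else [])
      ((hL.mono hk).add (IsE.const 1)) fun k'' hk' m hm => ?_
    exact IsP.ite (isT_unary ((hn.mono hk').add (IsE.const 1)) hm) (h k'' n m (hn.mono hk') hm)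
      IsP.nil
  · intro n m r w hw
    have h1 : Unary w 0 n := by
      have := unary_append [] (List.replicate m true ++ false :: r) n
      simpa [← hw] using this
    have h2 : Unary w (n + 1) m := by
      have := unary_append (List.replicate n true ++ [false]) r m
      simp only [List.append_assoc, List.singleton_append, ← hw, List.length_append,
        List.length_replicate, List.length_singleton] at this
      exact this
    have hl : w.length = n + (m + (r.length + 1) + 1) := by
      rw [hw]
      simp
    beta_reduce
    rw [flatMap_unique (n := n) (by omega) (fun n => Unary w 0 n) h1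
      (fun n' h' => Unary.unique h' h1), flatMap_unique (n := m) (by omega)
      (fun m => Unary w (n + 1) m) h2 (fun m' h' => Unary.unique h' h2)]

end Pool.Agent.PTL
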