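import Pool.Agent.PTL.Table

/-!
# Iterating an increasing function up to a fixed point
-/

set_option autoImplicit false

namespace Pool.Agent.PTL

/-- Every true bit stays true. -/
def Up (l l' : List Bool) : Prop := List.Forall₂ (fun a b : Bool => a = true → b = true) l l'

theorem Up.count {l l' : List Bool} (h : Up l l') :
    l.count true ≤ l'.count true ∧ (l.count true = l'.count true → l = l') := by
  unfold Up at h
  induction h with
  | nil => simp
  | @cons a b l l' hab h ih =>
    obtain ⟨h1, h2⟩ := ih
    cases a <;> cases b
    · simp only [List.count_cons, List.cons.injEq, true_and]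
      exact ⟨by simpa using h1, fun e => h2 (by simpa using e)⟩
    · simp only [List.count_cons]
      refine ⟨by simp; omega, fun e => ?_⟩
      simp at e
      omega
    · simp at hab
    · simp only [List.count_cons, List.cons.injEq, true_and]
      exact ⟨by simpa using h1, fun e => h2 (by simpa using e)⟩

theorem Up.append {l₁ l₂ l₁' l₂' : List Bool} (h : Up l₁ l₁') (h' : Up l₂ l₂') :
    Up (l₁ ++ l₂) (l₁' ++ l₂') := List.rel_append h h'

theorem up_flatMap {f g : ℕ → List Bool} {b : ℕ} (h : ∀ v < b, Up (f v) (g v)) :
    Up ((List.range b).flatMap f) ((List.range b).flatMap g) := by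
  induction b with
  | zero => exact List.Forall₂.nil
  | succ b ih =>
    rw [List.range_succ, List.flatMap_append, List.flatMap_append, List.flatMap_singleton,
      List.flatMap_singleton]
    exact (ih fun v hv => h v (by omega)).append (h b (by omega))

theorem up_tbl : ∀ (bs : List ℕ) (f g : List ℕ → Bool),
    (∀ l, Below bs l → f l = true → g l = true) → Up (tbl bs f) (tbl bs g)
  | [], f, g, h => List.Forall₂.cons (h [] trivial) List.Forall₂.nil
  | b :: bs, f, g, h => by
    simp only [tbl]
    exact up_flatMap fun v hv => up_tbl bs _ _ fun l hl => h (v :: l) ⟨hv, hl⟩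

theorem fixed_of_up {x : ℕ → List Bool} {F : List Bool → List Bool} {L : ℕ}
    (hx : ∀ n, x (n + 1) = F (x n)) (hup : ∀ n, Up (x n) (x (n + 1)))
    (hL : ∀ n, (x n).length = L) : F (x L) = x L := by
  by_contra hne
  have h1 : ∀ m ≤ L, x (m + 1) ≠ x m := by
    intro m hm e
    have hc : ∀ j, x (m + j) = x m := by
      intro j
      induction j with
      | zero => rfl
      | succ j ih => rw [← add_assoc, hx, ih, ← hx, e]
    apply hne
    rw [← hx]
    have e1 := hc (L + 1 - m)
    have e2 := hc (L - m)
    rw [show m + (L + 1 - m) = L + 1 by omega] at e1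
    rw [show m + (L - m) = L by omega] at e2
    rw [e1, e2]
  have h2 : ∀ m ≤ L + 1, m ≤ (x m).count true := by
    intro m
    induction m with
    | zero => intro _; omega
    | succ m ih =>
      intro hm
      have h3 := ih (by omega)
      obtain ⟨h4, h5⟩ := (hup m).count
      have h6 : (x m).count true ≠ (x (m + 1)).count true := fun e =>
        h1 m (by omega) (h5 e).symm
      omega
  have h3 := h2 (L + 1) le_rfl
  have h4 : (x (L + 1)).count true ≤ (x (L + 1)).length := List.count_le_length
  rw [hL] at h4
  omega

end Pool.Agent.PTL
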