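import Pool.Agent.PTL.Main

/-!
# Polynomial time functions: composition and iteration
-/

set_option autoImplicit false

namespace Pool.Agent.PTL

open Pool.Agent.MEternal (SP)
open Pool.Agent.MEternal.SP (RunLe Run)

/-- The function is computed by a stack program in polynomial time. -/
def PTC (f : List Bool → List Bool) : Prop :=
  ∃ (K : Type) (_ : Fintype K) (_ : DecidableEq K) (p : SP K) (k₀ k₁ : K) (q : Polynomial ℕ),
    ∀ w, RunLe p (Function.update (fun _ => []) k₀ w) (Function.update (fun _ => []) k₁ (f w))
      (q.eval w.length)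

/-- Such a function is computable in polynomial time in the sense of Mathlib. -/
theorem PTC.polyTime {f : List Bool → List Bool} (h : PTC f) :
    Nonempty (Turing.TM2ComputableInPolyTime (id : List Bool → List Bool)
      (id : List Bool → List Bool) f) := by
  obtain ⟨K, _, _, p, k₀, k₁, q, h⟩ := h
  exact SP.toPolyTime p k₀ k₁ f q h

/-- The output of a loop program. -/
theorem PTC.ofP (p : P) : PTC (fun w => p.output w 1 (env0 w.length)) := by
  set S : Finset Reg := insert .inp (insert .out (regs p.main)) with hS
  have h₀ : Reg.inp ∈ S := by simp [hS]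
  have h₁ : Reg.out ∈ S := by simp [hS]
  refine ⟨{k // k ∈ S}, inferInstance, inferInstance,
    mapSP (fun k => if hk : k ∈ S then ⟨k, hk⟩ else ⟨.inp, h₀⟩) p.main, ⟨.inp, h₀⟩, ⟨.out, h₁⟩,
    p.tp + 8 * Polynomial.X + 8 + 2 * p.tp, fun w => ?_⟩
  apply runLe_restrict S (by
    intro k hk
    simp [hS, hk]) h₀ h₁
  · intro k hk
    simp [hk]
  · refine (P.main_run p w).mono ?_
    have h4 := P.output_le w p w.length 1 (env0 w.length) (by
      intro i
      simp only [env0]
      split_ifs <;> omega)
    simp only [Polynomial.eval_add, Polynomial.eval_mul,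
      Polynomial.eval_ofNat, Polynomial.eval_X]
    omega

theorem PTC.congr {f g : List Bool → List Bool} (h : PTC f) (hfg : ∀ w, g w = f w) : PTC g := by
  have : g = f := funext hfg
  rw [this]
  exact h

/-- number of letters of all stacks in `S` -/
theorem run_length {K : Type} [DecidableEq K] {p : SP K} {s s' : K → List Bool} {t : ℕ}
    (h : Run p s s' t) (k₁ : K) : (s' k₁).length ≤ (s k₁).length + t := by
  have upd : ∀ (s : K → List Bool) (k : K) (b : Bool) (l : List Bool), s k = b :: l →
      (Function.update s k l k₁).length ≤ (s k₁).length := by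
    intro s k b l hl
    by_cases h : k₁ = k
    · subst h
      rw [Function.update_self, hl]
      simp
    · rw [Function.update_of_ne h]
  induction h with
  | skip s => omega
  | push k b s =>
    by_cases h : k₁ = k
    · subst h
      rw [Function.update_self]
      simp
    · rw [Function.update_of_ne h]
      omega
  | pop_nil h hr ih => omega
  | @pop_false k e f t s s' n l h hr ih =>
    have := upd s k _ l h
    omega
  | @pop_true k e f t s s' n l h hr ih =>
    have := upd s k _ l h
    omega
  | seq h h' ih ih' => omega
  | loop_nil h => omega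
  | @loop_false k p s l h =>
    have := upd s k _ l h
    omega
  | @loop_true k p s s' s'' n m l h hr hr' ih ih' =>
    have := upd s k _ l h
    omega
  | each_nil h => omega
  | @each_false k f t s s' s'' n m l h hr hr' ih ih' =>
    have := upd s k _ l h
    omega
  | @each_true k f t s s' s'' n m l h hr hr' ih ih' =>
    have := upd s k _ l h
    omega

/-- The output is of polynomial size. -/
theorem length_le_of_run {K : Type} [DecidableEq K] {p : SP K} {k₀ k₁ : K} {w w' : List Bool}
    {T : ℕ}
    (h : RunLe p (Function.update (fun _ => []) k₀ w) (Function.update (fun _ => []) k₁ w') T) :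
    w'.length ≤ w.length + T := by
  obtain ⟨t, ht, h⟩ := h
  have h1 := run_length h k₁
  rw [Function.update_self] at h1
  by_cases hk : k₁ = k₀
  · subst hk
    rw [Function.update_self] at h1
    omega
  · rw [Function.update_of_ne hk] at h1
    simp only [List.length_nil] at h1
    omega

theorem eval_mono (q : Polynomial ℕ) {a b : ℕ} (h : a ≤ b) : q.eval a ≤ q.eval b := by
  induction q using Polynomial.induction_on' with
  | add p q hp hq =>
    simp only [Polynomial.eval_add]
    omega
  | monomial k c =>
    simp only [Polynomial.eval_monomial]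
    exact Nat.mul_le_mul_left _ (Nat.pow_le_pow_left h k)

/-- Registers for the composition. -/
inductive K2 (K₁ K₂ : Type)
  | a (k : K₁)
  | b (k : K₂)
  | t
  deriving DecidableEq

/-- `K2` as a sum of types. -/
def eK2 (K₁ K₂ : Type) : K2 K₁ K₂ ≃ K₁ ⊕ K₂ ⊕ Unit where
  toFun
    | .a k => .inl k
    | .b k => .inr (.inl k)
    | .t => .inr (.inr ())
  invFun := Sum.elim .a (Sum.elim .b fun _ => .t)
  left_inv := by rintro (_ | _ | _) <;> rfl
  right_inv := by rintro (_ | _ | _) <;> rfl

instance (K₁ K₂ : Type) [Fintype K₁] [Fintype K₂] : Fintype (K2 K₁ K₂) :=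
  Fintype.ofEquiv _ (eK2 K₁ K₂).symm

theorem PTC.comp {g f : List Bool → List Bool} (hg : PTC g) (hf : PTC f) :
    PTC (fun w => g (f w)) := by
  obtain ⟨K₁, _, _, p₁, a₀, a₁, q₁, h₁⟩ := hf
  obtain ⟨K₂, _, _, p₂, b₀, b₁, q₂, h₂⟩ := hg
  refine ⟨K2 K₁ K₂, inferInstance, inferInstance,
    .seq (mapSP .a p₁) (.seq (.each (.a a₁) (.push .t false) (.push .t true))
      (.seq (.each .t (.push (.b b₀) false) (.push (.b b₀) true)) (mapSP .b p₂))),
    .a a₀, .b b₁, q₁ + 4 * (Polynomial.X + q₁) + 2 + q₂.comp (Polynomial.X + q₁), fun w => ?_⟩
  have hlen := length_le_of_run (h₁ w)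
  have r1 := runLe_map (g := (.a : K₁ → K2 K₁ K₂)) (fun _ _ e => by injection e) (h₁ w)
    (fun _ => []) (fun _ => rfl)
  have r2 := move_run (a := (.a a₁ : K2 K₁ K₂)) (b := .t) (by simp)
    (Function.update (fun _ => []) (.a a₁) (f w))
  rw [Function.update_self, Function.update_idem, Function.update_of_ne (by simp),
    List.append_nil] at r2
  have e1 : Function.update (fun _ => [] : K2 K₁ K₂ → List Bool) (.a a₁) [] = fun _ => [] := by
    funext k
    by_cases hk : k = .a a₁
    · subst hk; simp
    · rw [Function.update_of_ne hk]
  rw [e1] at r2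
  have r3 := move_run (a := (.t : K2 K₁ K₂)) (b := .b b₀) (by simp)
    (Function.update (fun _ => []) .t (f w).reverse)
  rw [Function.update_self, Function.update_idem, Function.update_of_ne (by simp),
    List.append_nil, List.reverse_reverse] at r3
  have e2 : Function.update (fun _ => [] : K2 K₁ K₂ → List Bool) .t [] = fun _ => [] := by
    funext k
    by_cases hk : k = .t
    · subst hk; simp
    · rw [Function.update_of_ne hk]
  rw [e2] at r3
  have r4 := runLe_map (g := (.b : K₂ → K2 K₁ K₂)) (fun _ _ e => by injection e) (h₂ (f w))
    (fun _ => []) (fun _ => rfl)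
  have r5 := RunLe.seq r1 (RunLe.seq r2 (RunLe.seq r3 r4))
  refine r5.mono ?_
  have hq : q₂.eval (f w).length ≤ q₂.eval (w.length + q₁.eval w.length) :=
    eval_mono q₂ hlen
  simp only [Polynomial.eval_add, Polynomial.eval_mul, Polynomial.eval_comp,
      Polynomial.eval_ofNat, Polynomial.eval_X, List.length_reverse]
  omega

/-- Registers for the iteration. -/
inductive KI (K₁ K₂ : Type)
  | a (k : K₁)
  | b (k : K₂)
  | m
  | t
  deriving DecidableEq

/-- `KI` as a sum of types. -/
def eKI (K₁ K₂ : Type) : KI K₁ K₂ ≃ K₁ ⊕ K₂ ⊕ Bool where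
  toFun
    | .a k => .inl k
    | .b k => .inr (.inl k)
    | .m => .inr (.inr true)
    | .t => .inr (.inr false)
  invFun := Sum.elim .a (Sum.elim .b fun b => if b then .m else .t)
  left_inv := by rintro (_ | _ | _ | _) <;> rfl
  right_inv := by rintro (_ | _ | b) <;> first | rfl | (cases b <;> rfl)

instance (K₁ K₂ : Type) [Fintype K₁] [Fintype K₂] : Fintype (KI K₁ K₂) :=
  Fintype.ofEquiv _ (eKI K₁ K₂).symm

theorem update_nil {K : Type} [DecidableEq K] (k : K) :
    Function.update (fun _ => [] : K → List Bool) k [] = fun _ => [] := by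
  funext k'
  by_cases hk : k' = k
  · subst hk; simp
  · rw [Function.update_of_ne hk]

theorem upd_swap {K : Type} [DecidableEq K] {k k' : K} (h : k ≠ k') (l l' : List Bool) :
    Function.update (Function.update (fun _ => [] : K → List Bool) k l) k' l' =
      Function.update (Function.update (fun _ => []) k' l') k l :=
  Function.update_comm (β := fun _ => List Bool) h l l' (fun _ => [])

theorem upd_swap_nil {K : Type} [DecidableEq K] {k k' : K} (h : k ≠ k') (l : List Bool) :
    Function.update (Function.update (fun _ => [] : K → List Bool) k l) k' [] =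
      Function.update (fun _ => []) k l := by
  rw [upd_swap h, update_nil]

/-- Iterating a function which does not increase the length. -/
theorem PTC.iter {f g : List Bool → List Bool} (hf : PTC f) (hlen : ∀ w, (f w).length ≤ w.length)
    (hg : PTC g) : PTC (fun w => f^[(g w).length] w) := by
  obtain ⟨K₁, _, _, p₁, a₀, a₁, q₁, h₁⟩ := hf
  obtain ⟨K₂, _, _, p₂, b₀, b₁, q₂, h₂⟩ := hg
  set body : SP (KI K₁ K₂) := .seq (mapSP .a p₁) (.seq
    (.each (.a a₁) (.push .t false) (.push .t true))
    (.each .t (.push (.a a₀) false) (.push (.a a₀) true))) with hbody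
  refine ⟨KI K₁ K₂, inferInstance, inferInstance,
    .seq (.each .m (.push .t false) (.push .t true))
      (.seq (.each .t (.seq (.push (.a a₀) false) (.push (.b b₀) false))
        (.seq (.push (.a a₀) true) (.push (.b b₀) true)))
        (.seq (mapSP .b p₂) (.each (.b b₁) body body))),
    .m, .a a₀, 5 * Polynomial.X + 3 + q₂ + (Polynomial.X + q₂) * (q₁ + 4 * Polynomial.X + 3),
    fun w => ?_⟩
  have hlenf : ∀ i, (f^[i] w).length ≤ w.length := by
    intro i
    induction i with
    | zero => exact le_rfl
    | succ i ih =>
      rw [Function.iterate_succ_apply']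
      exact (hlen _).trans ih
  have hleng := length_le_of_run (h₂ w)
  have r1 := move_run (a := (.m : KI K₁ K₂)) (b := .t) (by simp)
    (Function.update (fun _ => []) .m w)
  rw [Function.update_self, Function.update_idem, Function.update_of_ne (by simp),
    List.append_nil, update_nil] at r1
  have r2 := copy_run (a := (.t : KI K₁ K₂)) (b := .a a₀) (c := .b b₀) (by simp) (by simp)
    (by simp) (Function.update (fun _ => []) .t w.reverse)
  rw [Function.update_self, Function.update_idem, Function.update_of_ne (by simp),
    Function.update_of_ne (by simp), List.append_nil, List.reverse_reverse, update_nil] at r2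
  have r3 := runLe_map (g := (.b : K₂ → KI K₁ K₂)) (fun _ _ e => by injection e) (h₂ w)
    (Function.update (fun _ => []) (.a a₀) w) (fun k => by rw [Function.update_of_ne (by simp)])
  have r4 := RunLe.each (k := (.b b₁ : KI K₁ K₂)) (f := body) (t := body)
    (T := q₁.eval w.length + 4 * w.length + 2) (g w)
    (fun i => Function.update (Function.update (fun _ => []) (.a a₀) (f^[i] w)) (.b b₁)
      ((g w).drop i)) (fun i _ => Function.update_self _ _ _) ?_
  · simp only [List.drop_zero, Function.iterate_zero, id_eq, List.drop_length] at r4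
    have e1 : Function.update (Function.update (fun _ => [] : KI K₁ K₂ → List Bool) (.a a₀)
        (f^[(g w).length] w)) (.b b₁) [] =
        Function.update (fun _ => []) (.a a₀) (f^[(g w).length] w) := by
      rw [upd_swap_nil (by simp)]
    rw [e1] at r4
    have r5 := RunLe.seq r1 (RunLe.seq r2 (RunLe.seq r3 r4))
    refine r5.mono ?_
    simp only [Polynomial.eval_add, Polynomial.eval_mul,
      Polynomial.eval_ofNat, Polynomial.eval_X, List.length_reverse]
    have : (g w).length * (q₁.eval w.length + 4 * w.length + 2 + 1) ≤
        (w.length + q₂.eval w.length) * (q₁.eval w.length + 4 * w.length + 3) :=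
      Nat.mul_le_mul hleng (by omega)
    omega
  · intro i hi
    simp only [ite_self]
    rw [Function.update_idem]
    set l := (g w).drop (i + 1) with hl
    set v := f^[i] w with hv
    have hfv : f^[i + 1] w = f v := by rw [Function.iterate_succ_apply']
    rw [hfv]
    have hvl : v.length ≤ w.length := hlenf i
    have hfl : (f v).length ≤ w.length := (hlen v).trans hvl
    have s1 := runLe_map (g := (.a : K₁ → KI K₁ K₂)) (fun _ _ e => by injection e) (h₁ v)
      (Function.update (fun _ => []) (.b b₁) l) (fun k => by rw [Function.update_of_ne (by simp)])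
    rw [upd_swap (k := (.b b₁ : KI K₁ K₂)) (k' := .a a₀) (by simp)] at s1
    have s2 := move_run (a := (.a a₁ : KI K₁ K₂)) (b := .t) (by simp)
      (Function.update (Function.update (fun _ => []) (.b b₁) l) (.a a₁) (f v))
    rw [Function.update_self, Function.update_idem, Function.update_of_ne (by simp),
      Function.update_of_ne (by simp), List.append_nil, upd_swap_nil (by simp)] at s2
    have s3 := move_run (a := (.t : KI K₁ K₂)) (b := .a a₀) (by simp)
      (Function.update (Function.update (fun _ => []) (.b b₁) l) .t (f v).reverse)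
    rw [Function.update_self, Function.update_idem, Function.update_of_ne (by simp),
      Function.update_of_ne (by simp), List.append_nil, List.reverse_reverse,
      upd_swap_nil (by simp), upd_swap (k := (.b b₁ : KI K₁ K₂)) (k' := .a a₀) (by simp)] at s3
    refine (RunLe.seq s1 (RunLe.seq s2 s3)).mono ?_
    have := eval_mono q₁ hvl
    simp only [List.length_reverse]
    omega

end Pool.Agent.PTL
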