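import Pool.Agent.MEternal.FP

/-!
# A small language for polynomial time: expressions, tests with bounded quantifiers, programs

Variables are numbered by nesting depth: at depth `k` the variables `0, ..., k - 1` are in use, a
quantifier or a loop at depth `k` binds the variable `k`.
-/

set_option autoImplicit false

namespace Pool.Agent.PTL

open Pool.Agent.MEternal (SP)
open Pool.Agent.MEternal.SP (RunLe)

/-- Registers. -/
inductive Reg
  | inp | inq | V | A | B | C | O | out | F
  | x (i : ℕ)
  deriving DecidableEq

/-- Arithmetical expressions. -/
inductive E
  | var (i : ℕ) : E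
  | const (c : ℕ) : E
  | add (e f : E) : E
  | mul (e f : E) : E
  | pred (e : E) : E

/-- Tests. -/
inductive Q
  | tt : Q
  | lt (e f : E) : Q
  | bit (e : E) : Q
  | and (b c : Q) : Q
  | or (b c : Q) : Q
  | not (b : Q) : Q
  | ex (e : E) (b : Q) : Q

/-- Loop programs. -/
inductive P
  | nop : P
  | emit (b : Bool) : P
  | seq (p q : P) : P
  | ite (b : Q) (p q : P) : P
  | loop (e : E) (p : P) : P

/-- Value of an expression. -/
def E.val (env : ℕ → ℕ) : E → ℕ
  | .var i => env i
  | .const c => c
  | .add e f => e.val env + f.val env
  | .mul e f => e.val env * f.val env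
  | .pred e => e.val env - 1

/-- Value of a test at depth `k`. -/
def Q.val (w : List Bool) : Q → ℕ → (ℕ → ℕ) → Bool
  | .tt, _, _ => true
  | .lt e f, _, env => decide (e.val env < f.val env)
  | .bit e, _, env => w.getD (e.val env) false
  | .and b c, k, env => b.val w k env && c.val w k env
  | .or b c, k, env => b.val w k env || c.val w k env
  | .not b, k, env => !(b.val w k env)
  | .ex e b, k, env => (List.range (e.val env)).any fun v =>
      b.val w (k + 1) (Function.update env k v)

/-- Output of a program at depth `k`. -/
def P.output (w : List Bool) : P → ℕ → (ℕ → ℕ) → List Bool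
  | .nop, _, _ => []
  | .emit b, _, _ => [b]
  | .seq p q, k, env => p.output w k env ++ q.output w k env
  | .ite b p q, k, env => if b.val w k env then p.output w k env else q.output w k env
  | .loop e p, k, env => (List.range (e.val env)).flatMap fun v =>
      p.output w (k + 1) (Function.update env k v)

/-- Contents of the registers. -/
@[ext] structure Sta where
  w : List Bool
  w' : List Bool
  v : List Bool
  a : List Bool
  b : List Bool
  c : List Bool
  o : List Bool
  u : List Bool
  f : List Bool
  env : ℕ → ℕ

/-- The assignment of the contents. -/
def Sta.toFun (s : Sta) : Reg → List Bool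
  | .inp => s.w
  | .inq => s.w'
  | .V => s.v
  | .A => s.a
  | .B => s.b
  | .C => s.c
  | .O => s.o
  | .out => s.u
  | .F => s.f
  | .x i => List.replicate (s.env i) true

section update

variable (s : Sta) (l : List Bool)

theorem upd_inp : Function.update s.toFun .inp l = ({s with w := l} : Sta).toFun := by
  funext r; rcases r with _ | _ | _ | _ | _ | _ | _ | _ | _ | i <;>
    simp [Sta.toFun, Function.update]

theorem upd_inq : Function.update s.toFun .inq l = ({s with w' := l} : Sta).toFun := by
  funext r; rcases r with _ | _ | _ | _ | _ | _ | _ | _ | _ | i <;>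
    simp [Sta.toFun, Function.update]

theorem upd_V : Function.update s.toFun .V l = ({s with v := l} : Sta).toFun := by
  funext r; rcases r with _ | _ | _ | _ | _ | _ | _ | _ | _ | i <;>
    simp [Sta.toFun, Function.update]

theorem upd_A : Function.update s.toFun .A l = ({s with a := l} : Sta).toFun := by
  funext r; rcases r with _ | _ | _ | _ | _ | _ | _ | _ | _ | i <;>
    simp [Sta.toFun, Function.update]

theorem upd_B : Function.update s.toFun .B l = ({s with b := l} : Sta).toFun := by
  funext r; rcases r with _ | _ | _ | _ | _ | _ | _ | _ | _ | i <;>
    simp [Sta.toFun, Function.update]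

theorem upd_C : Function.update s.toFun .C l = ({s with c := l} : Sta).toFun := by
  funext r; rcases r with _ | _ | _ | _ | _ | _ | _ | _ | _ | i <;>
    simp [Sta.toFun, Function.update]

theorem upd_O : Function.update s.toFun .O l = ({s with o := l} : Sta).toFun := by
  funext r; rcases r with _ | _ | _ | _ | _ | _ | _ | _ | _ | i <;>
    simp [Sta.toFun, Function.update]

theorem upd_out : Function.update s.toFun .out l = ({s with u := l} : Sta).toFun := by
  funext r; rcases r with _ | _ | _ | _ | _ | _ | _ | _ | _ | i <;>
    simp [Sta.toFun, Function.update]

theorem upd_F : Function.update s.toFun .F l = ({s with f := l} : Sta).toFun := by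
  funext r; rcases r with _ | _ | _ | _ | _ | _ | _ | _ | _ | i <;>
    simp [Sta.toFun, Function.update]

theorem upd_x (i : ℕ) (n : ℕ) : Function.update s.toFun (.x i) (List.replicate n true) =
    ({s with env := Function.update s.env i n} : Sta).toFun := by
  funext r
  rcases r with _ | _ | _ | _ | _ | _ | _ | _ | _ | j <;> simp [Sta.toFun, Function.update]
  split_ifs with h <;> simp [h]

end update

end Pool.Agent.PTL
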