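import Pool.Agent.PTL.Lang

/-!
# Renaming the registers of stack programs
-/

set_option autoImplicit false

namespace Pool.Agent.PTL

open Pool.Agent.MEternal (SP)
open Pool.Agent.MEternal.SP (RunLe Run)

variable {K K' : Type} [DecidableEq K] [DecidableEq K']

/-- Rename the registers. -/
def mapSP (g : K → K') : SP K → SP K'
  | .skip => .skip
  | .push k b => .push (g k) b
  | .pop k e f t => .pop (g k) (mapSP g e) (mapSP g f) (mapSP g t)
  | .seq p q => .seq (mapSP g p) (mapSP g q)
  | .loop k p => .loop (g k) (mapSP g p)
  | .each k f t => .each (g k) (mapSP g f) (mapSP g t)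

/-- The registers of a program. -/
def regs : SP K → Finset K
  | .skip => ∅
  | .push k _ => {k}
  | .pop k e f t => insert k (regs e ∪ regs f ∪ regs t)
  | .seq p q => regs p ∪ regs q
  | .loop k p => insert k (regs p)
  | .each k f t => insert k (regs f ∪ regs t)

theorem run_map {g : K → K'} {S : Set K} (hg : Set.InjOn g S) {p : SP K} {s s' : K → List Bool}
    {t : ℕ} (h : Run p s s' t) : (∀ k ∈ regs p, k ∈ S) → ∀ σ : K' → List Bool,
    (∀ k ∈ S, σ (g k) = s k) → ∃ σ' : K' → List Bool, Run (mapSP g p) σ σ' t ∧
      (∀ k ∈ S, σ' (g k) = s' k) ∧ ∀ k', (∀ k ∈ S, g k ≠ k') → σ' k' = σ k' := by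
  have upd : ∀ (σ : K' → List Bool) (s : K → List Bool) (k : K) (l : List Bool), k ∈ S →
      (∀ k ∈ S, σ (g k) = s k) → ∀ k' ∈ S, Function.update σ (g k) l (g k') =
        Function.update s k l k' := by
    intro σ s k l hk hσ k' hk'
    by_cases h : k' = k
    · subst h; simp
    · rw [Function.update_of_ne h, Function.update_of_ne (fun e => h (hg hk' hk e)), hσ k' hk']
  have upd2 : ∀ (σ : K' → List Bool) (k : K) (l : List Bool), k ∈ S → ∀ k',
      (∀ k ∈ S, g k ≠ k') → Function.update σ (g k) l k' = σ k' := by
    intro σ k l hk k' hk'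
    rw [Function.update_of_ne (hk' k hk).symm]
  induction h with
  | skip s =>
    intro _ σ hσ
    exact ⟨σ, Run.skip σ, hσ, fun _ _ => rfl⟩
  | push k b s =>
    intro hS σ hσ
    have hk : k ∈ S := hS k (by simp [regs])
    refine ⟨Function.update σ (g k) (b :: σ (g k)), Run.push _ _ _, ?_, upd2 _ _ _ hk⟩
    rw [hσ k hk]
    exact upd _ _ _ _ hk hσ
  | @pop_nil k e f t s s' n h hr ih =>
    intro hS σ hσ
    have hk : k ∈ S := hS k (by simp [regs])
    obtain ⟨σ', h1, h2, h3⟩ := ih (fun k hk => hS k (by simp [regs, hk])) σ hσ
    exact ⟨σ', Run.pop_nil (by rw [hσ k hk, h]) h1, h2, h3⟩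
  | @pop_false k e f t s s' n l h hr ih =>
    intro hS σ hσ
    have hk : k ∈ S := hS k (by simp [regs])
    obtain ⟨σ', h1, h2, h3⟩ := ih (fun k hk => hS k (by simp [regs, hk]))
      (Function.update σ (g k) l) (upd _ _ _ _ hk hσ)
    exact ⟨σ', Run.pop_false (by rw [hσ k hk, h]) h1, h2,
      fun k' hk' => (h3 k' hk').trans (upd2 _ _ _ hk k' hk')⟩
  | @pop_true k e f t s s' n l h hr ih =>
    intro hS σ hσ
    have hk : k ∈ S := hS k (by simp [regs])
    obtain ⟨σ', h1, h2, h3⟩ := ih (fun k hk => hS k (by simp [regs, hk]))
      (Function.update σ (g k) l) (upd _ _ _ _ hk hσ)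
    exact ⟨σ', Run.pop_true (by rw [hσ k hk, h]) h1, h2,
      fun k' hk' => (h3 k' hk').trans (upd2 _ _ _ hk k' hk')⟩
  | seq h h' ih ih' =>
    intro hS σ hσ
    obtain ⟨σ', h1, h2, h3⟩ := ih (fun k hk => hS k (by simp [regs, hk])) σ hσ
    obtain ⟨σ'', h1', h2', h3'⟩ := ih' (fun k hk => hS k (by simp [regs, hk])) σ' h2
    exact ⟨σ'', Run.seq h1 h1', h2', fun k' hk' => (h3' k' hk').trans (h3 k' hk')⟩
  | @loop_nil k p s h =>
    intro hS σ hσ
    have hk : k ∈ S := hS k (by simp [regs])
    exact ⟨σ, Run.loop_nil (by rw [hσ k hk, h]), hσ, fun _ _ => rfl⟩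
  | @loop_false k p s l h =>
    intro hS σ hσ
    have hk : k ∈ S := hS k (by simp [regs])
    exact ⟨Function.update σ (g k) l, Run.loop_false (by rw [hσ k hk, h]), upd _ _ _ _ hk hσ,
      upd2 _ _ _ hk⟩
  | @loop_true k p s s' s'' n m l h hr hr' ih ih' =>
    intro hS σ hσ
    have hk : k ∈ S := hS k (by simp [regs])
    obtain ⟨σ', h1, h2, h3⟩ := ih (fun k hk => hS k (by simp [regs, hk]))
      (Function.update σ (g k) l) (upd _ _ _ _ hk hσ)
    obtain ⟨σ'', h1', h2', h3'⟩ := ih' hS σ' h2
    exact ⟨σ'', Run.loop_true (by rw [hσ k hk, h]) h1 h1', h2', fun k' hk' =>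
      (h3' k' hk').trans ((h3 k' hk').trans (upd2 _ _ _ hk k' hk'))⟩
  | @each_nil k f t s h =>
    intro hS σ hσ
    have hk : k ∈ S := hS k (by simp [regs])
    exact ⟨σ, Run.each_nil (by rw [hσ k hk, h]), hσ, fun _ _ => rfl⟩
  | @each_false k f t s s' s'' n m l h hr hr' ih ih' =>
    intro hS σ hσ
    have hk : k ∈ S := hS k (by simp [regs])
    obtain ⟨σ', h1, h2, h3⟩ := ih (fun k hk => hS k (by simp [regs, hk]))
      (Function.update σ (g k) l) (upd _ _ _ _ hk hσ)
    obtain ⟨σ'', h1', h2', h3'⟩ := ih' hS σ' h2
    exact ⟨σ'', Run.each_false (by rw [hσ k hk, h]) h1 h1', h2', fun k' hk' =>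
      (h3' k' hk').trans ((h3 k' hk').trans (upd2 _ _ _ hk k' hk'))⟩
  | @each_true k f t s s' s'' n m l h hr hr' ih ih' =>
    intro hS σ hσ
    have hk : k ∈ S := hS k (by simp [regs])
    obtain ⟨σ', h1, h2, h3⟩ := ih (fun k hk => hS k (by simp [regs, hk]))
      (Function.update σ (g k) l) (upd _ _ _ _ hk hσ)
    obtain ⟨σ'', h1', h2', h3'⟩ := ih' hS σ' h2
    exact ⟨σ'', Run.each_true (by rw [hσ k hk, h]) h1 h1', h2', fun k' hk' =>
      (h3' k' hk').trans ((h3 k' hk').trans (upd2 _ _ _ hk k' hk'))⟩

/-- A program inside a larger set of registers. -/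
theorem runLe_map {g : K → K'} (hg : Function.Injective g) {p : SP K} {k₀ k₁ : K}
    {w w' : List Bool} {T : ℕ}
    (h : RunLe p (Function.update (fun _ => []) k₀ w) (Function.update (fun _ => []) k₁ w') T)
    (τ : K' → List Bool) (hτ : ∀ k, τ (g k) = []) :
    RunLe (mapSP g p) (Function.update τ (g k₀) w) (Function.update τ (g k₁) w') T := by
  obtain ⟨t, ht, h⟩ := h
  obtain ⟨σ', h1, h2, h3⟩ := run_map (S := Set.univ) hg.injOn h (fun _ _ => trivial)
    (Function.update τ (g k₀) w) (fun k _ => by
      by_cases hk : k = k₀
      · subst hk; simp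
      · rw [Function.update_of_ne hk, Function.update_of_ne (fun e => hk (hg e)), hτ])
  refine ⟨t, ht, ?_⟩
  have e : σ' = Function.update τ (g k₁) w' := by
    funext k'
    by_cases hk' : ∃ k, g k = k'
    · obtain ⟨k, rfl⟩ := hk'
      rw [h2 k trivial]
      by_cases hk : k = k₁
      · subst hk; simp
      · rw [Function.update_of_ne hk, Function.update_of_ne (fun e => hk (hg e)), hτ]
    · push Not at hk'
      rw [h3 k' fun k _ => hk' k, Function.update_of_ne (hk' k₀).symm,
        Function.update_of_ne (hk' k₁).symm]
  rw [← e]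
  exact h1

/-- Restriction to finitely many registers. -/
theorem runLe_restrict {p : SP K} (S : Finset K) (hS : regs p ⊆ S) {k₀ k₁ : K} (h₀ : k₀ ∈ S)
    (h₁ : k₁ ∈ S) (g : K → {k // k ∈ S}) (hg : ∀ k (hk : k ∈ S), g k = ⟨k, hk⟩)
    {w w' : List Bool} {T : ℕ}
    (h : RunLe p (Function.update (fun _ => []) k₀ w) (Function.update (fun _ => []) k₁ w') T) :
    RunLe (mapSP g p) (Function.update (fun _ => []) ⟨k₀, h₀⟩ w)
      (Function.update (fun _ => []) ⟨k₁, h₁⟩ w') T := by
  obtain ⟨t, ht, h⟩ := h
  have hval : ∀ k ∈ S, (g k).1 = k := fun k hk => by rw [hg k hk]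
  obtain ⟨σ', h1, h2, h3⟩ := run_map (S := (S : Set K)) (g := g)
    (fun a ha b hb e => by rw [← hval a ha, ← hval b hb, e]) h (fun k hk => hS hk)
    (Function.update (fun _ => []) ⟨k₀, h₀⟩ w) (fun k hk => by
      rw [hg k hk]
      by_cases hk : k = k₀
      · subst hk; simp
      · rw [Function.update_of_ne hk, Function.update_of_ne (fun e => hk (congrArg Subtype.val e))])
  refine ⟨t, ht, ?_⟩
  have e : σ' = Function.update (fun _ => []) ⟨k₁, h₁⟩ w' := by
    funext k'
    obtain ⟨k, hk⟩ := k'
    have := h2 k hk
    rw [hg k hk] at this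
    rw [this]
    by_cases hk : k = k₁
    · subst hk; simp
    · rw [Function.update_of_ne hk, Function.update_of_ne (fun e => hk (congrArg Subtype.val e))]
  rw [← e]
  exact h1

/-- Moving a stack. -/
theorem move_run {a b : K} (hab : a ≠ b) (σ : K → List Bool) :
    RunLe (.each a (.push b false) (.push b true) : SP K) σ
      (Function.update (Function.update σ a []) b ((σ a).reverse ++ σ b))
      (2 * (σ a).length + 1) := by
  have h := RunLe.each (k := a) (f := .push b false) (t := .push b true) (T := 1) (σ a)
    (fun i => Function.update (Function.update σ a ((σ a).drop i)) b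
      (((σ a).take i).reverse ++ σ b)) (fun i _ => by
        rw [Function.update_of_ne hab, Function.update_self]) ?_
  · simp only [List.drop_zero, Function.update_eq_self, List.take_zero, List.reverse_nil,
      List.nil_append, List.drop_length, List.take_length] at h
    exact h.mono (by omega)
  · intro i hi
    have e1 : Function.update (Function.update (Function.update σ a ((σ a).drop i)) b
        (((σ a).take i).reverse ++ σ b)) a ((σ a).drop (i + 1)) =
        Function.update (Function.update σ a ((σ a).drop (i + 1))) b
          (((σ a).take i).reverse ++ σ b) := by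
      rw [Function.update_comm hab.symm, Function.update_idem]
    rw [e1]
    have e2 : ((σ a).take (i + 1)).reverse = (σ a)[i] :: ((σ a).take i).reverse := by
      rw [List.take_add_one, List.getElem?_eq_getElem hi]
      simp
    have key : ∀ x : Bool, RunLe (.push b x : SP K)
        (Function.update (Function.update σ a ((σ a).drop (i + 1))) b
          (((σ a).take i).reverse ++ σ b))
        (Function.update (Function.update σ a ((σ a).drop (i + 1))) b
          (x :: (((σ a).take i).reverse ++ σ b))) 1 := by
      intro x
      have h := RunLe.push b x (Function.update (Function.update σ a ((σ a).drop (i + 1))) b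
          (((σ a).take i).reverse ++ σ b))
      rw [Function.update_self, Function.update_idem] at h
      exact h
    rw [e2]
    rcases hb : (σ a)[i] with _ | _
    · simpa using key false
    · simpa using key true

/-- Copying a stack to two stacks. -/
theorem copy_run {a b c : K} (hab : a ≠ b) (hac : a ≠ c) (hbc : b ≠ c) (σ : K → List Bool) :
    RunLe (.each a (.seq (.push b false) (.push c false)) (.seq (.push b true) (.push c true)) :
      SP K) σ
      (Function.update (Function.update (Function.update σ a []) b ((σ a).reverse ++ σ b)) c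
        ((σ a).reverse ++ σ c))
      (3 * (σ a).length + 1) := by
  have h := RunLe.each (k := a) (f := .seq (.push b false) (.push c false))
    (t := .seq (.push b true) (.push c true)) (T := 2) (σ a)
    (fun i => Function.update (Function.update (Function.update σ a ((σ a).drop i)) b
      (((σ a).take i).reverse ++ σ b)) c (((σ a).take i).reverse ++ σ c)) (fun i _ => by
        rw [Function.update_of_ne hac, Function.update_of_ne hab, Function.update_self]) ?_
  · simp only [List.drop_zero, Function.update_eq_self, List.take_zero, List.reverse_nil,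
      List.nil_append, List.drop_length, List.take_length] at h
    exact h.mono (by omega)
  · intro i hi
    have e1 : Function.update (Function.update (Function.update (Function.update σ a
        ((σ a).drop i)) b (((σ a).take i).reverse ++ σ b)) c (((σ a).take i).reverse ++ σ c)) a
        ((σ a).drop (i + 1)) =
        Function.update (Function.update (Function.update σ a ((σ a).drop (i + 1))) b
          (((σ a).take i).reverse ++ σ b)) c (((σ a).take i).reverse ++ σ c) := by
      rw [Function.update_comm hac.symm, Function.update_comm hab.symm, Function.update_idem]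
    rw [e1]
    have e2 : ((σ a).take (i + 1)).reverse = (σ a)[i] :: ((σ a).take i).reverse := by
      rw [List.take_add_one, List.getElem?_eq_getElem hi]
      simp
    have key : ∀ x : Bool, RunLe (.seq (.push b x) (.push c x) : SP K)
        (Function.update (Function.update (Function.update σ a ((σ a).drop (i + 1))) b
          (((σ a).take i).reverse ++ σ b)) c (((σ a).take i).reverse ++ σ c))
        (Function.update (Function.update (Function.update σ a ((σ a).drop (i + 1))) b
          (x :: (((σ a).take i).reverse ++ σ b))) c (x :: (((σ a).take i).reverse ++ σ c))) 2 := by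
      intro x
      have h := RunLe.push b x (Function.update (Function.update (Function.update σ a
        ((σ a).drop (i + 1))) b (((σ a).take i).reverse ++ σ b)) c
          (((σ a).take i).reverse ++ σ c))
      rw [Function.update_of_ne hbc, Function.update_self, Function.update_comm hbc.symm,
        Function.update_idem] at h
      have h' := RunLe.push c x (Function.update (Function.update (Function.update σ a
        ((σ a).drop (i + 1))) b (x :: (((σ a).take i).reverse ++ σ b))) c
          (((σ a).take i).reverse ++ σ c))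
      rw [Function.update_self, Function.update_idem] at h'
      exact RunLe.seq h h'
    rw [e2]
    rcases hb : (σ a)[i] with _ | _
    · simpa using key false
    · simpa using key true

end Pool.Agent.PTL
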