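import Pool.Agent.PTL.Run
import Pool.Agent.PTL.Map

/-!
# Loop programs run in polynomial time
-/

set_option autoImplicit false

namespace Pool.Agent.PTL

open Pool.Agent.MEternal (SP)
open Pool.Agent.MEternal.SP (RunLe Run)

/-- Translation of loop programs, at depth `k`. -/
def P.comp : P → ℕ → SP Reg
  | .nop, _ => .skip
  | .emit b, _ => .push .O b
  | .seq p q, k => .seq (p.comp k) (q.comp k)
  | .ite b p q, k => b.comp k (p.comp k) (q.comp k)
  | .loop e p, k => .seq (.push .V false) (.seq e.comp (.seq (.push .B false)
      (.seq (.loop .V (.push .B true)) (.seq (.loop .B (.seq (p.comp (k + 1)) (.push (.x k) true)))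
        (.loop (.x k) .skip)))))

/-- Bound for the running time. -/
noncomputable def P.tp : P → Polynomial ℕ
  | .nop => 0
  | .emit _ => 1
  | .seq p q => p.tp + q.tp
  | .ite b p q => b.tp + p.tp + q.tp
  | .loop e p => e.tp + 3 * e.vp + 5 + e.vp * (p.tp.comp (Polynomial.X + e.vp) + 2)

theorem P.comp_run (p : P) : ∀ (m k : ℕ) (s : Sta), s.c = [] → s.w' = [] →
    (∀ i, k ≤ i → s.env i = 0) → (∀ i, s.env i ≤ m) → s.w.length ≤ m →
    RunLe (p.comp k) s.toFun ({s with o := (p.output s.w k s.env).reverse ++ s.o} : Sta).toFun
      (p.tp.eval m) := by
  induction p with
  | nop =>
    intro m k s _ _ _ _ _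
    exact (RunLe.skip _).mono (Nat.zero_le _)
  | emit b =>
    intro m k s _ _ _ _ _
    have h1 := RunLe.push (.O : Reg) b s.toFun
    rw [upd_O] at h1
    simp only [P.tp, Polynomial.eval_one]
    exact h1
  | seq p q ihp ihq =>
    intro m k s hc hw' hk hm hw
    have h1 := ihp m k s hc hw' hk hm hw
    have h2 := ihq m k ({s with o := (p.output s.w k s.env).reverse ++ s.o} : Sta) hc hw' hk hm hw
    have h3 := RunLe.seq h1 h2
    simp only [P.tp, P.output, Polynomial.eval_add, List.reverse_append,
      List.append_assoc] at h3 ⊢
    exact h3
  | ite b p q ihp ihq =>
    intro m k s hc hw' hk hm hw
    have h1 := ihp m k s hc hw' hk hm hw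
    have h2 := ihq m k s hc hw' hk hm hw
    simp only [P.tp, Polynomial.eval_add, P.comp, P.output]
    rw [add_assoc]
    apply b.comp_run _ _ _ _ s _ _ hc hw' hk hm hw
    · intro hb
      rw [if_pos hb]
      exact h1.mono (by omega)
    · intro hb
      rw [if_neg (by simp [hb])]
      exact h2.mono (by omega)
  | loop e p ih =>
    intro m k s hc hw' hk hm hw
    have hv := E.val_le hm e
    have h1 := RunLe.push (.V : Reg) false s.toFun
    rw [upd_V] at h1
    have h2 := e.comp_run ({s with v := false :: s.v} : Sta) hc hm
    have h3 := RunLe.push (.B : Reg) false
      ({s with v := List.replicate (e.val s.env) true ++ false :: s.v} : Sta).toFun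
    rw [upd_B] at h3
    have h4 := move_VB (e.val s.env)
      ({s with v := List.replicate (e.val s.env) true ++ false :: s.v,
               b := false :: s.b} : Sta) s.v rfl
    have h5 : RunLe (.loop .B (.seq (p.comp (k + 1)) (.push (.x k) true)) : SP Reg)
        ({s with b := List.replicate (e.val s.env) true ++ false :: s.b} : Sta).toFun
        ({s with o := ((P.loop e p).output s.w k s.env).reverse ++ s.o,
                 env := Function.update s.env k (e.val s.env)} : Sta).toFun
        (e.val s.env * (p.tp.eval (m + e.vp.eval m) + 1 + 1) + 1) := by
      have h := RunLe.loop (k := (.B : Reg)) (p := .seq (p.comp (k + 1)) (.push (.x k) true))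
        (T := p.tp.eval (m + e.vp.eval m) + 1) (rest := false :: s.b)
        (s' := ({s with o := ((P.loop e p).output s.w k s.env).reverse ++ s.o,
                        env := Function.update s.env k (e.val s.env)} : Sta).toFun)
        (e.val s.env)
        (fun j => ({s with b := List.replicate (e.val s.env - j) true ++ false :: s.b,
                           o := ((List.range j).flatMap fun v =>
                             p.output s.w (k + 1) (Function.update s.env k v)).reverse ++ s.o,
                           env := Function.update s.env k j} : Sta).toFun)
        (fun j _ => by simp [Sta.toFun]) ?_ ?_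
      · simp only [Nat.sub_zero, List.range_zero, List.flatMap_nil, List.reverse_nil,
          List.nil_append] at h
        have e0 : Function.update s.env k 0 = s.env := by
          rw [← hk k le_rfl, Function.update_eq_self]
        rw [e0] at h
        exact h
      · intro j hj
        rw [upd_B]
        have e1 : e.val s.env - j - 1 = e.val s.env - (j + 1) := by omega
        rw [e1]
        have h6 := ih (m + e.vp.eval m) (k + 1)
          ({s with b := List.replicate (e.val s.env - (j + 1)) true ++ false :: s.b,
                               o := ((List.range j).flatMap fun v =>
                                 p.output s.w (k + 1) (Function.update s.env k v)).reverse ++ s.o,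
                               env := Function.update s.env k j} : Sta) hc hw' (by
                                 intro i hi
                                 show Function.update s.env k j i = 0
                                 rw [Function.update_of_ne (by omega)]
                                 exact hk i (by omega)) (by
                                 intro i
                                 show Function.update s.env k j i ≤ _
                                 by_cases hik : i = k
                                 · subst hik
                                   rw [Function.update_self]
                                   omega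
                                 · rw [Function.update_of_ne hik]
                                   have := hm i
                                   omega) (by
                                 show s.w.length ≤ _
                                 omega)
        have h7 := RunLe.push (.x k : Reg) true ({s with
          b := List.replicate (e.val s.env - (j + 1)) true ++ false :: s.b,
          o := ((List.range (j + 1)).flatMap fun v =>
            p.output s.w (k + 1) (Function.update s.env k v)).reverse ++ s.o,
          env := Function.update s.env k j} : Sta).toFun
        have e2 : (true :: ({s with
          b := List.replicate (e.val s.env - (j + 1)) true ++ false :: s.b,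
          o := ((List.range (j + 1)).flatMap fun v =>
            p.output s.w (k + 1) (Function.update s.env k v)).reverse ++ s.o,
          env := Function.update s.env k j} : Sta).toFun (.x k)) =
            List.replicate (j + 1) true := by simp [Sta.toFun, List.replicate_succ]
        rw [e2, upd_x] at h7
        simp only [Function.update_idem] at h7
        refine RunLe.seq ?_ h7
        have e3 : ((List.range (j + 1)).flatMap fun v =>
            p.output s.w (k + 1) (Function.update s.env k v)).reverse ++ s.o =
            (p.output s.w (k + 1) (Function.update s.env k j)).reverse ++
              (((List.range j).flatMap fun v =>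
                p.output s.w (k + 1) (Function.update s.env k v)).reverse ++ s.o) := by
          rw [List.range_succ, List.flatMap_append]
          simp
        rw [e3]
        exact h6
      · simp only [Nat.sub_self, List.replicate_zero, List.nil_append]
        have h7 := RunLe.loop_false (k := (.B : Reg))
          (p := .seq (p.comp (k + 1)) (.push (.x k) true))
          (s := ({s with b := false :: s.b,
                         o := ((P.loop e p).output s.w k s.env).reverse ++ s.o,
                         env := Function.update s.env k (e.val s.env)} : Sta).toFun)
          (l := s.b) rfl
        rw [upd_B] at h7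
        exact h7
    have h8 := clear_x k ({s with o := ((P.loop e p).output s.w k s.env).reverse ++ s.o,
                                  env := Function.update s.env k (e.val s.env)} : Sta)
    simp only [Function.update_idem, Function.update_self] at h8
    have e0 : Function.update s.env k 0 = s.env := by rw [← hk k le_rfl, Function.update_eq_self]
    rw [e0] at h8
    have h6 := RunLe.seq h1 (RunLe.seq h2 (RunLe.seq h3 (RunLe.seq h4 (RunLe.seq h5 h8))))
    refine h6.mono ?_
    have : e.val s.env * (p.tp.eval (m + e.vp.eval m) + 1 + 1) ≤
        e.vp.eval m * (p.tp.eval (m + e.vp.eval m) + 2) :=
      Nat.mul_le_mul hv (by omega)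
    simp only [P.tp, Polynomial.eval_add, Polynomial.eval_mul, Polynomial.eval_ofNat,
      Polynomial.eval_comp, Polynomial.eval_X]
    omega

/-- The whole program: count the input, run the loop program, clean up and put the output
in the right order. -/
def P.main (p : P) : SP Reg :=
  .seq (.each .inp (.seq (.push .inq false) (.push (.x 0) true))
      (.seq (.push .inq true) (.push (.x 0) true)))
    (.seq (.each .inq (.push .inp false) (.push .inp true))
      (.seq (p.comp 1)
        (.seq (.each .inp .skip .skip)
          (.seq (.loop (.x 0) .skip) (.each .O (.push .out false) (.push .out true))))))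

/-- Initial values of the variables: the first one is the length of the input. -/
def env0 (n : ℕ) : ℕ → ℕ := fun i => if i = 0 then n else 0

theorem P.output_le (w : List Bool) (p : P) : ∀ (m k : ℕ) (env : ℕ → ℕ),
    (∀ i, env i ≤ m) → (p.output w k env).length ≤ p.tp.eval m := by
  induction p with
  | nop => intro m k env _; simp [P.output]
  | emit b => intro m k env _; simp [P.output, P.tp]
  | seq p q ihp ihq =>
    intro m k env hm
    simp only [P.output, P.tp, List.length_append, Polynomial.eval_add]
    exact add_le_add (ihp m k env hm) (ihq m k env hm)
  | ite b p q ihp ihq =>
    intro m k env hm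
    simp only [P.output, P.tp, Polynomial.eval_add]
    have h1 := ihp m k env hm
    have h2 := ihq m k env hm
    split_ifs
    · omega
    · omega
  | loop e p ih =>
    intro m k env hm
    have hv := E.val_le hm e
    simp only [P.output, P.tp, Polynomial.eval_add, Polynomial.eval_mul,
      List.length_flatMap, Polynomial.eval_comp, Polynomial.eval_X]
    have h1 : ((List.range (e.val env)).map fun v =>
        (p.output w (k + 1) (Function.update env k v)).length).sum ≤
          ((List.range (e.val env)).map fun _ => p.tp.eval (m + e.vp.eval m)).sum := by
      apply List.sum_le_sum
      intro v hv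
      have hv' := List.mem_range.1 hv
      apply ih
      intro i
      by_cases hik : i = k
      · subst hik
        rw [Function.update_self]
        omega
      · rw [Function.update_of_ne hik]
        have := hm i
        omega
    simp only [List.map_const', List.length_range, List.sum_replicate, smul_eq_mul] at h1
    have h2 : e.val env * p.tp.eval (m + e.vp.eval m) ≤
        e.vp.eval m * (p.tp.eval (m + e.vp.eval m) + 2) :=
      Nat.mul_le_mul hv (by omega)
    simp only [Polynomial.eval_ofNat]
    omega

theorem P.main_run (p : P) (w : List Bool) :
    RunLe p.main (Function.update (fun _ => []) .inp w)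
      (Function.update (fun _ => []) .out (p.output w 1 (env0 w.length)))
      (p.tp.eval w.length + 8 * w.length + 8 + 2 * (p.output w 1 (env0 w.length)).length) := by
  have h1 : RunLe (.each .inp (.seq (.push .inq false) (.push (.x 0) true))
      (.seq (.push .inq true) (.push (.x 0) true)) : SP Reg)
      (Function.update (fun _ => []) .inp w)
      (⟨[], w.reverse, [], [], [], [], [], [], [], env0 w.length⟩ : Sta).toFun
      (w.length * (2 + 1) + 1) := by
    have h := RunLe.each (k := (.inp : Reg))
      (f := .seq (.push .inq false) (.push (.x 0) true))
      (t := .seq (.push .inq true) (.push (.x 0) true)) (T := 2) w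
      (fun i => (⟨w.drop i, (w.take i).reverse, [], [], [], [], [], [], [], env0 i⟩ :
        Sta).toFun) (fun i _ => rfl) ?_
    · have e0 : (⟨w.drop 0, (w.take 0).reverse, [], [], [], [], [], [], [], env0 0⟩ :
        Sta).toFun = Function.update (fun _ => []) .inp w := by
        funext r
        rcases r with _ | _ | _ | _ | _ | _ | _ | _ | _ | i <;>
          simp [Sta.toFun, Function.update, env0]
      simp only [e0, List.take_length, List.drop_length] at h
      exact h
    · intro i hi
      rw [upd_inp]
      have e3 : (w.take (i + 1)).reverse = w[i] :: (w.take i).reverse := by
        rw [List.take_add_one, List.getElem?_eq_getElem hi]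
        simp
      have e4 : env0 (i + 1) = Function.update (env0 i) 0 (i + 1) := by
        funext j
        by_cases hj : j = 0
        · subst hj; simp [env0]
        · simp [env0, hj]
      have e5 : ∀ b : Bool, RunLe (.seq (.push .inq b) (.push (.x 0) true) : SP Reg)
          (⟨w.drop (i + 1), (w.take i).reverse, [], [], [], [], [], [], [], env0 i⟩ :
            Sta).toFun
          (⟨w.drop (i + 1), b :: (w.take i).reverse, [], [], [], [], [], [], [], env0 (i + 1)⟩ :
            Sta).toFun 2 := by
        intro b
        have g1 := RunLe.push (.inq : Reg) b
          (⟨w.drop (i + 1), (w.take i).reverse, [], [], [], [], [], [], [], env0 i⟩ :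
            Sta).toFun
        rw [upd_inq] at g1
        have g2 := RunLe.push (.x 0 : Reg) true
          (⟨w.drop (i + 1), b :: (w.take i).reverse, [], [], [], [], [], [], [], env0 i⟩ :
            Sta).toFun
        have e6 : (true :: (⟨w.drop (i + 1), b :: (w.take i).reverse, [], [], [], [], [], [], [],
            env0 i⟩ : Sta).toFun (.x 0)) = List.replicate (i + 1) true := by
          simp [Sta.toFun, env0, List.replicate_succ]
        rw [e6, upd_x] at g2
        simp only at g2
        rw [← e4] at g2
        exact RunLe.seq g1 g2
      rw [e3]
      rcases hb : w[i] with _ | _
      · simpa using e5 false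
      · simpa using e5 true
  have h2 : RunLe (.each .inq (.push .inp false) (.push .inp true) : SP Reg)
      (⟨[], w.reverse, [], [], [], [], [], [], [], env0 w.length⟩ : Sta).toFun
      (⟨w, [], [], [], [], [], [], [], [], env0 w.length⟩ : Sta).toFun
      (2 * w.length + 1) := by
    have h := restore_run (⟨w, w.reverse, [], [], [], [], [], [], [], env0 w.length⟩ :
      Sta) w.length (by simp)
    simp only [List.drop_length] at h
    exact h
  have h3 := p.comp_run w.length 1
    (⟨w, [], [], [], [], [], [], [], [], env0 w.length⟩ : Sta) rfl rfl
    (by
      intro i hi
      simp only [env0]
      rw [if_neg (by omega)])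
    (by
      intro i
      simp only [env0]
      split_ifs
      · exact le_rfl
      · omega) le_rfl
  simp only [List.append_nil] at h3
  have h4 : RunLe (.each .inp .skip .skip : SP Reg)
      (⟨w, [], [], [], [], [], (p.output w 1 (env0 w.length)).reverse, [], [],
        env0 w.length⟩ : Sta).toFun
      (⟨[], [], [], [], [], [], (p.output w 1 (env0 w.length)).reverse, [], [],
        env0 w.length⟩ : Sta).toFun (w.length * (0 + 1) + 1) := by
    have h := RunLe.each (k := (.inp : Reg)) (f := .skip) (t := .skip) (T := 0) w
      (fun i => (⟨w.drop i, [], [], [], [], [], (p.output w 1 (env0 w.length)).reverse, [], [],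
        env0 w.length⟩ : Sta).toFun) (fun i _ => rfl) ?_
    · simpa using h
    · intro i hi
      rw [upd_inp]
      simp only [ite_self]
      exact RunLe.skip _
  have h5 := clear_x 0 (⟨[], [], [], [], [], [], (p.output w 1 (env0 w.length)).reverse, [], [],
        env0 w.length⟩ : Sta)
  have h6 : RunLe (.each .O (.push .out false) (.push .out true) : SP Reg)
      (⟨[], [], [], [], [], [], (p.output w 1 (env0 w.length)).reverse, [], [],
        Function.update (env0 w.length) 0 0⟩ : Sta).toFun
      (Function.update (fun _ => []) .out (p.output w 1 (env0 w.length)))
      ((p.output w 1 (env0 w.length)).length * (1 + 1) + 1) := by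
    set l := p.output w 1 (env0 w.length) with hl
    have h := RunLe.each (k := (.O : Reg)) (f := .push .out false)
      (t := .push .out true) (T := 1) l.reverse
      (fun i => (⟨[], [], [], [], [], [], l.reverse.drop i, (l.reverse.take i).reverse, [],
        Function.update (env0 w.length) 0 0⟩ : Sta).toFun) (fun i _ => rfl) ?_
    · have e0 : (⟨[], [], [], [], [], [], [], l, [],
        Function.update (env0 w.length) 0 0⟩ : Sta).toFun =
          Function.update (fun _ => []) .out l := by
        funext r
        rcases r with _ | _ | _ | _ | _ | _ | _ | _ | _ | i <;>
          simp [Sta.toFun, Function.update, env0]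
        intro hi1 hi2
        exact absurd hi2 hi1
      simp only [List.drop_zero, List.take_zero, List.reverse_nil, List.take_length,
        List.drop_length, List.reverse_reverse, List.length_reverse] at h
      rw [List.drop_of_length_le (by simp), List.take_of_length_le (by simp),
        List.reverse_reverse, e0] at h
      exact h
    · intro i hi
      rw [upd_O]
      have e3 : (l.reverse.take (i + 1)).reverse = l.reverse[i] :: (l.reverse.take i).reverse := by
        rw [List.take_add_one, List.getElem?_eq_getElem hi]
        simp
      rw [e3]
      rcases hb : l.reverse[i] with _ | _
      · simp only [Bool.false_eq_true, if_false]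
        have g1 := RunLe.push (.out : Reg) false
          (⟨[], [], [], [], [], [], l.reverse.drop (i + 1), (l.reverse.take i).reverse, [],
            Function.update (env0 w.length) 0 0⟩ : Sta).toFun
        rw [upd_out] at g1
        exact g1
      · simp only [if_true]
        have g1 := RunLe.push (.out : Reg) true
          (⟨[], [], [], [], [], [], l.reverse.drop (i + 1), (l.reverse.take i).reverse, [],
            Function.update (env0 w.length) 0 0⟩ : Sta).toFun
        rw [upd_out] at g1
        exact g1
  have h7 := RunLe.seq h1 (RunLe.seq h2 (RunLe.seq h3 (RunLe.seq h4 (RunLe.seq h5 h6))))
  refine h7.mono ?_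
  have e1 : (⟨[], [], [], [], [], [], (p.output w 1 (env0 w.length)).reverse, [], [],
        env0 w.length⟩ : Sta).env 0 = w.length := by simp [env0]
  rw [e1]
  omega

end Pool.Agent.PTL
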