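import Pool.Agent.PTL.Lang

/-!
# Correctness of the translation of loop programs
-/

namespace Pool.Agent.PTL

set_option autoImplicit false

open Pool.Agent.MEternal (SP)
open Pool.Agent.MEternal.SP (RunLe)



/-- Push `c` ones. -/
def pushN (k : Reg) : ℕ → SP Reg
  | 0 => .skip
  | n + 1 => .seq (.push k true) (pushN k n)

/-- Push the value of an expression, in unary, on the register `V`. -/
def E.comp : E → SP Reg
  | .var i => .seq (.loop (.x i) (.seq (.push .C true) (.push .V true)))
      (.loop .C (.push (.x i) true))
  | .const c => pushN .V c
  | .add e f => .seq e.comp f.comp
  | .mul e f => .seq (.push .V false) (.seq e.comp (.seq (.push .A false)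
      (.seq (.loop .V (.push .A true)) (.loop .A f.comp))))
  | .pred e => .seq (.push .V false) (.seq e.comp (.seq (.push .A false)
      (.seq (.loop .V (.push .A true)) (.seq (.pop .A .skip (.push .A false) .skip)
        (.loop .A (.push .V true))))))

/-- Bound for the value of an expression. -/
noncomputable def E.vp : E → Polynomial ℕ
  | .var _ => Polynomial.X
  | .const c => Polynomial.C c
  | .add e f => e.vp + f.vp
  | .mul e f => e.vp * f.vp
  | .pred e => e.vp

/-- Bound for the time to evaluate an expression. -/
noncomputable def E.tp : E → Polynomial ℕ
  | .var _ => 5 * Polynomial.X + 2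
  | .const c => Polynomial.C c
  | .add e f => e.tp + f.tp
  | .mul e f => e.tp + 2 * e.vp + 3 + (e.vp * (f.tp + 1) + 1)
  | .pred e => e.tp + 4 * e.vp + 6

theorem E.val_le {m : ℕ} {env : ℕ → ℕ} (henv : ∀ i, env i ≤ m) (e : E) :
    e.val env ≤ e.vp.eval m := by
  induction e with
  | var i => simpa [E.val, E.vp] using henv i
  | const c => simp [E.val, E.vp]
  | add e f he hf => simpa [E.val, E.vp] using add_le_add he hf
  | mul e f he hf => simpa [E.val, E.vp] using Nat.mul_le_mul he hf
  | pred e he =>
    simp only [E.val, E.vp]
    omega

theorem pushN_V (n : ℕ) (s : Sta) :
    RunLe (pushN .V n) s.toFun ({s with v := List.replicate n true ++ s.v} : Sta).toFun n := by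
  induction n generalizing s with
  | zero => exact RunLe.skip _
  | succ n ih =>
    have h1 := RunLe.push (.V : Reg) true s.toFun
    rw [upd_V] at h1
    have h2 := ih {s with v := true :: s.v}
    have h3 := RunLe.seq h1 h2
    have e : List.replicate n true ++ true :: s.v = List.replicate (n + 1) true ++ s.v := by
      rw [List.replicate_succ', List.append_assoc]
      rfl
    rw [show ({s with v := List.replicate (n + 1) true ++ s.v} : Sta) =
      {s with v := List.replicate n true ++ true :: s.v} by rw [e]]
    exact h3.mono (by omega)

/-- Moving a counter from `V` to `A`. -/
theorem move_VA (n : ℕ) (s : Sta) (v : List Bool)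
    (hv : s.v = List.replicate n true ++ false :: v) :
    RunLe (.loop .V (.push .A true)) s.toFun
      ({s with v := v, a := List.replicate n true ++ s.a} : Sta).toFun (2 * n + 1) := by
  have h := RunLe.loop (k := (.V : Reg)) (p := .push .A true) (T := 1) (rest := false :: v)
    (s' := ({s with v := v, a := List.replicate n true ++ s.a} : Sta).toFun) n
    (fun i => ({s with v := List.replicate (n - i) true ++ false :: v,
                       a := List.replicate i true ++ s.a} : Sta).toFun)
    (fun i _ => rfl) ?_ ?_
  · simp only [Nat.sub_zero, List.replicate_zero, List.nil_append] at h
    rw [← hv] at h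
    exact h.mono (by omega)
  · intro i hi
    rw [upd_V]
    have h1 := RunLe.push (.A : Reg) true ({s with
      v := List.replicate (n - i - 1) true ++ false :: v,
      a := List.replicate i true ++ s.a} : Sta).toFun
    rw [upd_A] at h1
    have e1 : n - i - 1 = n - (i + 1) := by omega
    rw [e1] at h1
    rw [e1]
    exact h1
  · simp only [Nat.sub_self, List.replicate_zero, List.nil_append]
    have h1 := RunLe.loop_false (k := (.V : Reg)) (p := .push .A true)
      (s := ({s with v := false :: v, a := List.replicate n true ++ s.a} : Sta).toFun) (l := v) rfl
    rw [upd_V] at h1
    exact h1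

theorem E.comp_run {m : ℕ} (e : E) : ∀ (s : Sta), s.c = [] → (∀ i, s.env i ≤ m) →
    RunLe e.comp s.toFun
      ({s with v := List.replicate (e.val s.env) true ++ s.v} : Sta).toFun (e.tp.eval m) := by
  induction e with
  | var i =>
    intro s hc hm
    simp only [E.comp, E.val, E.tp]
    have h1 : RunLe (.loop (.x i) (.seq (.push .C true) (.push .V true)) : SP Reg) s.toFun
        ({s with c := List.replicate (s.env i) true, v := List.replicate (s.env i) true ++ s.v,
                 env := Function.update s.env i 0} : Sta).toFun (s.env i * (2 + 1) + 1) := by
      have h := RunLe.loop (k := (.x i : Reg)) (p := .seq (.push .C true) (.push .V true))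
        (T := 2) (rest := [])
        (s' := ({s with c := List.replicate (s.env i) true,
                        v := List.replicate (s.env i) true ++ s.v,
                        env := Function.update s.env i 0} : Sta).toFun) (s.env i)
        (fun j => ({s with c := List.replicate j true, v := List.replicate j true ++ s.v,
                           env := Function.update s.env i (s.env i - j)} : Sta).toFun)
        (fun j _ => by simp [Sta.toFun]) ?_ ?_
      · simp only [Nat.sub_zero, List.replicate_zero, List.nil_append,
          Function.update_eq_self] at h
        rw [← hc] at h
        exact h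
      · intro j hj
        rw [List.append_nil, upd_x]
        simp only [Function.update_idem]
        have h1 := RunLe.push (.C : Reg) true ({s with
          c := List.replicate j true, v := List.replicate j true ++ s.v,
          env := Function.update s.env i (s.env i - j - 1)} : Sta).toFun
        rw [upd_C] at h1
        have h2 := RunLe.push (.V : Reg) true ({s with
          c := List.replicate (j + 1) true, v := List.replicate j true ++ s.v,
          env := Function.update s.env i (s.env i - j - 1)} : Sta).toFun
        rw [upd_V] at h2
        have e1 : s.env i - j - 1 = s.env i - (j + 1) := by omega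
        rw [e1] at h1 h2 ⊢
        exact RunLe.seq h1 h2
      · rw [Nat.sub_self]
        exact RunLe.loop_nil (by simp [Sta.toFun])
    have h2 : RunLe (.loop .C (.push (.x i) true) : SP Reg)
        ({s with c := List.replicate (s.env i) true, v := List.replicate (s.env i) true ++ s.v,
                 env := Function.update s.env i 0} : Sta).toFun
        ({s with v := List.replicate (s.env i) true ++ s.v} : Sta).toFun
        (s.env i * (1 + 1) + 1) := by
      have h := RunLe.loop (k := (.C : Reg)) (p := .push (.x i) true)
        (T := 1) (rest := [])
        (s' := ({s with v := List.replicate (s.env i) true ++ s.v} : Sta).toFun) (s.env i)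
        (fun j => ({s with c := List.replicate (s.env i - j) true,
                           v := List.replicate (s.env i) true ++ s.v,
                           env := Function.update s.env i j} : Sta).toFun)
        (fun j _ => by simp [Sta.toFun]) ?_ ?_
      · exact h
      · intro j hj
        rw [List.append_nil, upd_C]
        have h1 := RunLe.push (.x i : Reg) true ({s with
          c := List.replicate (s.env i - j - 1) true, v := List.replicate (s.env i) true ++ s.v,
          env := Function.update s.env i j} : Sta).toFun
        have e2 : (true :: ({s with
          c := List.replicate (s.env i - j - 1) true, v := List.replicate (s.env i) true ++ s.v,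
          env := Function.update s.env i j} : Sta).toFun (.x i)) =
            List.replicate (j + 1) true := by simp [Sta.toFun, List.replicate_succ]
        rw [e2, upd_x] at h1
        simp only [Function.update_idem] at h1
        have e1 : s.env i - j - 1 = s.env i - (j + 1) := by omega
        rw [e1] at h1 ⊢
        exact h1
      · simp only [Nat.sub_self, List.replicate_zero, Function.update_eq_self]
        rw [show ({s with c := [], v := List.replicate (s.env i) true ++ s.v} : Sta) =
          {s with v := List.replicate (s.env i) true ++ s.v} by rw [← hc]]
        exact RunLe.loop_nil (by simp [Sta.toFun, hc])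
    refine (RunLe.seq h1 h2).mono ?_
    have := hm i
    simp
    omega
  | const c =>
    intro s _ _
    simp only [E.comp, E.val, E.tp, Polynomial.eval_C]
    exact pushN_V c s
  | add e f he hf =>
    intro s hc hm
    simp only [E.comp, E.val, E.tp, Polynomial.eval_add]
    have h1 := he s hc hm
    have h2 := hf ({s with v := List.replicate (e.val s.env) true ++ s.v} : Sta) hc hm
    have h3 := RunLe.seq h1 h2
    have e1 : List.replicate (f.val s.env) true ++ (List.replicate (e.val s.env) true ++ s.v) =
        List.replicate (e.val s.env + f.val s.env) true ++ s.v := by
      rw [← List.append_assoc, ← List.replicate_add, add_comm]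
    simp only [e1] at h3
    exact h3
  | mul e f he hf =>
    intro s hc hm
    simp only [E.comp, E.val, E.tp, Polynomial.eval_add, Polynomial.eval_mul,
      Polynomial.eval_one]
    have h1 := RunLe.push (.V : Reg) false s.toFun
    rw [upd_V] at h1
    have h2 := he ({s with v := false :: s.v} : Sta) hc hm
    have h3 := RunLe.push (.A : Reg) false
      ({s with v := List.replicate (e.val s.env) true ++ false :: s.v} : Sta).toFun
    rw [upd_A] at h3
    have h4 := move_VA (e.val s.env)
      ({s with v := List.replicate (e.val s.env) true ++ false :: s.v,
               a := false :: s.a} : Sta) s.v rfl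
    have h5 : RunLe (.loop .A f.comp : SP Reg)
        ({s with a := List.replicate (e.val s.env) true ++ false :: s.a} : Sta).toFun
        ({s with v := List.replicate (e.val s.env * f.val s.env) true ++ s.v} : Sta).toFun
        (e.val s.env * (f.tp.eval m + 1) + 1) := by
      have h := RunLe.loop (k := (.A : Reg)) (p := f.comp)
        (T := f.tp.eval m) (rest := false :: s.a)
        (s' := ({s with v := List.replicate (e.val s.env * f.val s.env) true ++ s.v} : Sta).toFun)
        (e.val s.env)
        (fun j => ({s with a := List.replicate (e.val s.env - j) true ++ false :: s.a,
                           v := List.replicate (j * f.val s.env) true ++ s.v} : Sta).toFun)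
        (fun j _ => by simp [Sta.toFun]) ?_ ?_
      · simpa using h
      · intro j hj
        rw [upd_A]
        have h6 := hf ({s with a := List.replicate (e.val s.env - j - 1) true ++ false :: s.a,
                               v := List.replicate (j * f.val s.env) true ++ s.v} : Sta) hc hm
        have e1 : List.replicate (f.val s.env) true ++ (List.replicate (j * f.val s.env) true ++
            s.v) = List.replicate ((j + 1) * f.val s.env) true ++ s.v := by
          rw [← List.append_assoc, ← List.replicate_add]
          congr 2
          ring
        have e2 : e.val s.env - j - 1 = e.val s.env - (j + 1) := by omega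
        simp only [e1, e2] at h6 ⊢
        exact h6
      · simp only [Nat.sub_self, List.replicate_zero, List.nil_append]
        have h7 := RunLe.loop_false (k := (.A : Reg)) (p := f.comp)
          (s := ({s with a := false :: s.a,
                         v := List.replicate (e.val s.env * f.val s.env) true ++ s.v} :
                           Sta).toFun)
          (l := s.a) rfl
        rw [upd_A] at h7
        exact h7
    have h6 := RunLe.seq h1 (RunLe.seq h2 (RunLe.seq h3 (RunLe.seq h4 h5)))
    refine h6.mono ?_
    have hv := E.val_le hm e
    have : e.val s.env * (f.tp.eval m + 1) ≤ e.vp.eval m * (f.tp.eval m + 1) :=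
      Nat.mul_le_mul_right _ hv
    simp
    omega
  | pred e he =>
    intro s hc hm
    simp only [E.comp, E.val, E.tp, Polynomial.eval_add, Polynomial.eval_mul]
    have h1 := RunLe.push (.V : Reg) false s.toFun
    rw [upd_V] at h1
    have h2 := he ({s with v := false :: s.v} : Sta) hc hm
    have h3 := RunLe.push (.A : Reg) false
      ({s with v := List.replicate (e.val s.env) true ++ false :: s.v} : Sta).toFun
    rw [upd_A] at h3
    have h4 := move_VA (e.val s.env)
      ({s with v := List.replicate (e.val s.env) true ++ false :: s.v,
               a := false :: s.a} : Sta) s.v rfl
    have h5 : RunLe (.pop .A .skip (.push .A false) .skip : SP Reg)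
        ({s with a := List.replicate (e.val s.env) true ++ false :: s.a} : Sta).toFun
        ({s with a := List.replicate (e.val s.env - 1) true ++ false :: s.a} : Sta).toFun
        2 := by
      by_cases h0 : e.val s.env = 0
      · rw [h0]
        refine RunLe.pop_false (l := s.a) (by simp [Sta.toFun]) ?_
        rw [upd_A]
        have g := RunLe.push (.A : Reg) false s.toFun
        rw [upd_A] at g
        exact g
      · have e1 : e.val s.env = (e.val s.env - 1) + 1 := by omega
        have g := RunLe.pop_true (k := (.A : Reg)) (e := .skip) (f := .push .A false)
          (t := .skip)
          (s := ({s with a := List.replicate (e.val s.env) true ++ false :: s.a} : Sta).toFun)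
          (l := List.replicate (e.val s.env - 1) true ++ false :: s.a)
          (by rw [e1]; simp [Sta.toFun, List.replicate_succ]) (RunLe.skip _)
        rw [upd_A] at g
        exact g.mono (by omega)
    have h6 : RunLe (.loop .A (.push .V true) : SP Reg)
        ({s with a := List.replicate (e.val s.env - 1) true ++ false :: s.a} : Sta).toFun
        ({s with v := List.replicate (e.val s.env - 1) true ++ s.v} : Sta).toFun
        ((e.val s.env - 1) * (1 + 1) + 1) := by
      have h := RunLe.loop (k := (.A : Reg)) (p := .push .V true)
        (T := 1) (rest := false :: s.a)
        (s' := ({s with v := List.replicate (e.val s.env - 1) true ++ s.v} : Sta).toFun)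
        (e.val s.env - 1)
        (fun j => ({s with a := List.replicate (e.val s.env - 1 - j) true ++ false :: s.a,
                           v := List.replicate j true ++ s.v} : Sta).toFun)
        (fun j _ => by simp [Sta.toFun]) ?_ ?_
      · simpa using h
      · intro j hj
        rw [upd_A]
        have g := RunLe.push (.V : Reg) true
          ({s with a := List.replicate (e.val s.env - 1 - j - 1) true ++ false :: s.a,
                   v := List.replicate j true ++ s.v} : Sta).toFun
        rw [upd_V] at g
        have e2 : e.val s.env - 1 - j - 1 = e.val s.env - 1 - (j + 1) := by omega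
        rw [e2] at g ⊢
        exact g
      · simp only [Nat.sub_self, List.replicate_zero, List.nil_append]
        have h7 := RunLe.loop_false (k := (.A : Reg)) (p := .push .V true)
          (s := ({s with a := false :: s.a,
                         v := List.replicate (e.val s.env - 1) true ++ s.v} : Sta).toFun)
          (l := s.a) rfl
        rw [upd_A] at h7
        exact h7
    have h7 := RunLe.seq h1 (RunLe.seq h2 (RunLe.seq h3 (RunLe.seq h4 (RunLe.seq h5 h6))))
    refine h7.mono ?_
    have hv := E.val_le hm e
    simp
    omega

/-- Put the input back on its register. -/
def restore : SP Reg := .each .inq (.push .inp false) (.push .inp true)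

/-- Run `p` or `q`, depending on the test `e < f`. -/
def ltComp (e f : E) (p q : SP Reg) : SP Reg :=
  .seq (.push .V false) (.seq e.comp (.seq (.push .A false)
      (.seq (.loop .V (.push .A true)) (.seq (.push .V false) (.seq f.comp
        (.seq (.loop .A (.pop .V .skip (.push .V false) .skip))
          (.pop .V q q (.seq (.loop .V .skip) p))))))))

/-- Run `p` or `q`, depending on a bit of the input. -/
def bitComp (e : E) (p q : SP Reg) : SP Reg :=
  .seq (.push .V false) (.seq e.comp (.seq (.push .A false)
      (.seq (.loop .V (.push .A true))
        (.seq (.loop .A (.pop .inp .skip (.push .inq false) (.push .inq true)))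
          (.pop .inp (.seq restore q) (.seq (.push .inp false) (.seq restore q))
            (.seq (.push .inp true) (.seq restore p)))))))

/-- Set the flag. -/
def setF : SP Reg := .pop .F .skip (.push .F true) (.push .F true)

/-- Run `p` or `q`, depending on a test at depth `k`. -/
def Q.comp : Q → ℕ → SP Reg → SP Reg → SP Reg
  | .tt, _, p, _ => p
  | .not b, k, p, q => b.comp k q p
  | .and b c, k, p, q => b.comp k (c.comp k p q) q
  | .or b c, k, p, q => b.comp k p (c.comp k p q)
  | .lt e f, _, p, q => ltComp e f p q
  | .bit e, _, p, q => bitComp e p q
  | .ex e b, k, p, q => .seq (.push .F false) (.seq (.push .V false) (.seq e.comp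
      (.seq (.push .B false) (.seq (.loop .V (.push .B true))
        (.seq (.loop .B (.seq (b.comp (k + 1) setF .skip) (.push (.x k) true)))
          (.seq (.loop (.x k) .skip) (.pop .F q q p)))))))

/-- Bound for the time of a test. -/
noncomputable def Q.tp : Q → Polynomial ℕ
  | .tt => 0
  | .not b => b.tp
  | .and b c => b.tp + c.tp
  | .or b c => b.tp + c.tp
  | .lt e f => e.tp + f.tp + 5 * e.vp + f.vp + 8
  | .bit e => e.tp + 5 * e.vp + 2 * Polynomial.X + 8
  | .ex e b => e.tp + 3 * e.vp + 8 + e.vp * (b.tp.comp (Polynomial.X + e.vp) + 4)

theorem restore_run (s : Sta) (n : ℕ) (h1 : s.w' = (s.w.take n).reverse) :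
    RunLe (restore : SP Reg) ({s with w := s.w.drop n} : Sta).toFun
      ({s with w' := []} : Sta).toFun (2 * s.w.length + 1) := by
  have h := RunLe.each (k := (.inq : Reg)) (f := .push .inp false) (t := .push .inp true)
    (T := 1) (s.w.take n).reverse
    (fun i => ({s with w := ((s.w.take n).reverse.take i).reverse ++ s.w.drop n,
                       w' := (s.w.take n).reverse.drop i} : Sta).toFun)
    (fun i _ => rfl) ?_
  · simp only [List.take_zero, List.reverse_nil, List.nil_append, List.drop_zero,
      List.take_length, List.reverse_reverse, List.take_append_drop, List.drop_length] at h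
    rw [← h1] at h
    refine h.mono ?_
    rw [h1]
    simp only [List.length_reverse, List.length_take]
    have := min_le_right n s.w.length
    omega
  · intro i hi
    rw [upd_inq]
    have e1 : ((s.w.take n).reverse.take (i + 1)).reverse =
        (s.w.take n).reverse[i] :: ((s.w.take n).reverse.take i).reverse := by
      rw [List.take_add_one, List.getElem?_eq_getElem hi]
      simp
    rw [e1]
    rcases hb : (s.w.take n).reverse[i] with _ | _
    · simp only [Bool.false_eq_true, if_false]
      have h1 := RunLe.push (.inp : Reg) false
        ({s with w := ((s.w.take n).reverse.take i).reverse ++ s.w.drop n,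
                 w' := (s.w.take n).reverse.drop (i + 1)} : Sta).toFun
      rw [upd_inp] at h1
      exact h1
    · simp only [if_true]
      have h1 := RunLe.push (.inp : Reg) true
        ({s with w := ((s.w.take n).reverse.take i).reverse ++ s.w.drop n,
                 w' := (s.w.take n).reverse.drop (i + 1)} : Sta).toFun
      rw [upd_inp] at h1
      exact h1

/-- Evaluation of an expression into a counter on register `A`. -/
theorem counter_run {m : ℕ} (e : E) (s : Sta) (hc : s.c = []) (hm : ∀ i, s.env i ≤ m)
    {q : SP Reg} {s' : Reg → List Bool} {T : ℕ}
    (hq : RunLe q ({s with a := List.replicate (e.val s.env) true ++ false :: s.a} : Sta).toFun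
      s' T) :
    RunLe (.seq (.push .V false) (.seq e.comp (.seq (.push .A false)
      (.seq (.loop .V (.push .A true)) q)))) s.toFun s' (e.tp.eval m + 2 * e.vp.eval m + 3 + T) := by
  have h1 := RunLe.push (.V : Reg) false s.toFun
  rw [upd_V] at h1
  have h2 := e.comp_run ({s with v := false :: s.v} : Sta) hc hm
  have h3 := RunLe.push (.A : Reg) false
    ({s with v := List.replicate (e.val s.env) true ++ false :: s.v} : Sta).toFun
  rw [upd_A] at h3
  have h4 := move_VA (e.val s.env)
    ({s with v := List.replicate (e.val s.env) true ++ false :: s.v,
             a := false :: s.a} : Sta) s.v rfl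
  have h6 := RunLe.seq h1 (RunLe.seq h2 (RunLe.seq h3 (RunLe.seq h4 hq)))
  refine h6.mono ?_
  have hv := E.val_le hm e
  omega

theorem lt_run {m : ℕ} (e f : E) (p q : SP Reg) (s : Sta)
    (s' : Reg → List Bool) (T : ℕ) (hc : s.c = []) (hm : ∀ i, s.env i ≤ m)
    (hP : e.val s.env < f.val s.env → RunLe p s.toFun s' T)
    (hQ : ¬ e.val s.env < f.val s.env → RunLe q s.toFun s' T) :
    RunLe (ltComp e f p q) s.toFun s' ((Q.lt e f).tp.eval m + T) := by
  simp only [Q.tp, Polynomial.eval_add, Polynomial.eval_mul]
  have hve := E.val_le hm e
  have hvf := E.val_le hm f
  -- the tail of the program
  have key : RunLe (.seq (.push .V false) (.seq f.comp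
      (.seq (.loop .A (.pop .V .skip (.push .V false) .skip))
        (.pop .V q q (.seq (.loop .V .skip) p)))) : SP Reg)
      ({s with a := List.replicate (e.val s.env) true ++ false :: s.a} : Sta).toFun s'
      (1 + (f.tp.eval m + (e.vp.eval m * (2 + 1) + 1 + (f.vp.eval m + 3 + T)))) := by
    have h1 := RunLe.push (.V : Reg) false
      ({s with a := List.replicate (e.val s.env) true ++ false :: s.a} : Sta).toFun
    rw [upd_V] at h1
    have h2 := f.comp_run
      ({s with v := false :: s.v,
               a := List.replicate (e.val s.env) true ++ false :: s.a} : Sta) hc hm
    refine RunLe.seq h1 (RunLe.seq h2 (RunLe.seq (T := e.vp.eval m * (2 + 1) + 1)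
      (s' := ({s with v := List.replicate (f.val s.env - e.val s.env) true ++ false :: s.v} :
        Sta).toFun) ?_ ?_))
    · have h := RunLe.loop (k := (.A : Reg)) (p := .pop .V .skip (.push .V false) .skip)
        (T := 2) (rest := false :: s.a)
        (s' := ({s with v := List.replicate (f.val s.env - e.val s.env) true ++ false :: s.v} :
          Sta).toFun) (e.val s.env)
        (fun i => ({s with v := List.replicate (f.val s.env - i) true ++ false :: s.v,
                           a := List.replicate (e.val s.env - i) true ++ false :: s.a} :
                             Sta).toFun)
        (fun i _ => rfl) ?_ ?_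
      · simp only [Nat.sub_zero] at h
        exact h.mono (by nlinarith)
      · intro i hi
        rw [upd_A]
        have e1 : e.val s.env - i - 1 = e.val s.env - (i + 1) := by omega
        rw [e1]
        by_cases hif : i < f.val s.env
        · have e2 : f.val s.env - i = (f.val s.env - (i + 1)) + 1 := by omega
          have h3 := RunLe.pop_true (k := (.V : Reg)) (e := .skip) (f := .push .V false)
            (t := .skip)
            (s := ({s with v := List.replicate (f.val s.env - i) true ++ false :: s.v,
                           a := List.replicate (e.val s.env - (i + 1)) true ++ false :: s.a} :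
                             Sta).toFun)
            (l := List.replicate (f.val s.env - (i + 1)) true ++ false :: s.v)
            (by rw [e2]; simp [Sta.toFun, List.replicate_succ]) (RunLe.skip _)
          rw [upd_V] at h3
          exact h3.mono (by omega)
        · have e2 : f.val s.env - i = 0 := by omega
          have e3 : f.val s.env - (i + 1) = 0 := by omega
          have h4 := RunLe.push (.V : Reg) false
            ({s with v := s.v,
                     a := List.replicate (e.val s.env - (i + 1)) true ++ false :: s.a} :
                             Sta).toFun
          rw [upd_V] at h4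
          rw [e2, e3]
          refine RunLe.pop_false (l := s.v) (by simp [Sta.toFun]) ?_
          rw [upd_V]
          exact h4
      · simp only [Nat.sub_self, List.replicate_zero, List.nil_append]
        have h7 := RunLe.loop_false (k := (.A : Reg))
          (p := .pop .V .skip (.push .V false) .skip)
          (s := ({s with v := List.replicate (f.val s.env - e.val s.env) true ++ false :: s.v,
                         a := false :: s.a} : Sta).toFun)
          (l := s.a) rfl
        rw [upd_A] at h7
        exact h7
    · by_cases hlt : e.val s.env < f.val s.env
      · have e2 : f.val s.env - e.val s.env = (f.val s.env - e.val s.env - 1) + 1 := by omega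
        have h8 : RunLe (.seq (.loop .V .skip) p : SP Reg)
            ({s with v := List.replicate (f.val s.env - e.val s.env - 1) true ++
                false :: s.v} : Sta).toFun s'
            (((f.val s.env - e.val s.env - 1) * (0 + 1) + 1) + T) := by
          refine RunLe.seq ?_ (hP hlt)
          have h := RunLe.loop (k := (.V : Reg)) (p := .skip)
            (T := 0) (rest := false :: s.v) (s' := s.toFun) (f.val s.env - e.val s.env - 1)
            (fun i => ({s with v := List.replicate (f.val s.env - e.val s.env - 1 - i) true ++
                false :: s.v} : Sta).toFun) (fun i _ => rfl) ?_ ?_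
          · simpa using h
          · intro i hi
            rw [upd_V]
            have e3 : f.val s.env - e.val s.env - 1 - i - 1 =
              f.val s.env - e.val s.env - 1 - (i + 1) := by omega
            rw [e3]
            exact RunLe.skip _
          · simp only [Nat.sub_self, List.replicate_zero, List.nil_append]
            have h7 := RunLe.loop_false (k := (.V : Reg)) (p := .skip)
              (s := ({s with v := false :: s.v} : Sta).toFun) (l := s.v) rfl
            rw [upd_V] at h7
            exact h7
        have h9 := RunLe.pop_true (k := (.V : Reg)) (e := q) (f := q)
            (t := .seq (.loop .V .skip) p)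
            (s := ({s with v := List.replicate (f.val s.env - e.val s.env) true ++
                false :: s.v} : Sta).toFun)
            (l := List.replicate (f.val s.env - e.val s.env - 1) true ++ false :: s.v)
            (by rw [e2]; simp [Sta.toFun, List.replicate_succ])
            (by rw [upd_V]; exact h8)
        exact h9.mono (by omega)
      · have e2 : f.val s.env - e.val s.env = 0 := by omega
        rw [e2]
        have h9 := RunLe.pop_false (k := (.V : Reg)) (e := q) (f := q)
            (t := .seq (.loop .V .skip) p)
            (s := ({s with v := List.replicate 0 true ++ false :: s.v} : Sta).toFun)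
            (l := s.v) (by simp [Sta.toFun])
            (by rw [upd_V]; exact hQ hlt)
        exact h9.mono (by omega)
  have h := counter_run e s hc hm key
  refine h.mono ?_
  simp
  omega

theorem bit_run {m : ℕ} (e : E) (p q : SP Reg) (s : Sta)
    (s' : Reg → List Bool) (T : ℕ) (hc : s.c = []) (hw' : s.w' = []) (hm : ∀ i, s.env i ≤ m)
    (hw : s.w.length ≤ m)
    (hP : s.w.getD (e.val s.env) false = true → RunLe p s.toFun s' T)
    (hQ : s.w.getD (e.val s.env) false = false → RunLe q s.toFun s' T) :
    RunLe (bitComp e p q) s.toFun s' ((Q.bit e).tp.eval m + T) := by
  simp only [Q.tp, Polynomial.eval_add, Polynomial.eval_mul]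
  have hve := E.val_le hm e
  have key : RunLe (.seq (.loop .A (.pop .inp .skip (.push .inq false) (.push .inq true)))
        (.pop .inp (.seq restore q) (.seq (.push .inp false) (.seq restore q))
          (.seq (.push .inp true) (.seq restore p))) : SP Reg)
      ({s with a := List.replicate (e.val s.env) true ++ false :: s.a} : Sta).toFun s'
      ((e.vp.eval m * (2 + 1) + 1) + (2 * m + 3 + T)) := by
    refine RunLe.seq (s' := ({s with w := s.w.drop (e.val s.env),
                                     w' := (s.w.take (e.val s.env)).reverse} : Sta).toFun) ?_ ?_
    · have h := RunLe.loop (k := (.A : Reg))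
        (p := .pop .inp .skip (.push .inq false) (.push .inq true))
        (T := 2) (rest := false :: s.a)
        (s' := ({s with w := s.w.drop (e.val s.env),
                        w' := (s.w.take (e.val s.env)).reverse} : Sta).toFun) (e.val s.env)
        (fun i => ({s with w := s.w.drop i, w' := (s.w.take i).reverse,
                           a := List.replicate (e.val s.env - i) true ++ false :: s.a} :
                             Sta).toFun)
        (fun i _ => rfl) ?_ ?_
      · simp only [Nat.sub_zero, List.drop_zero, List.take_zero, List.reverse_nil] at h
        rw [← hw'] at h
        exact h.mono (by nlinarith)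
      · intro i hi
        rw [upd_A]
        have e1 : e.val s.env - i - 1 = e.val s.env - (i + 1) := by omega
        rw [e1]
        by_cases hiw : i < s.w.length
        · have e2 : s.w.drop i = s.w[i] :: s.w.drop (i + 1) := List.drop_eq_getElem_cons hiw
          have e3 : (s.w.take (i + 1)).reverse = s.w[i] :: (s.w.take i).reverse := by
            rw [List.take_add_one, List.getElem?_eq_getElem hiw]
            simp
          rw [e3]
          rcases hb : s.w[i] with _ | _
          · rw [hb] at e2
            refine RunLe.pop_false (l := s.w.drop (i + 1)) (by simpa [Sta.toFun] using e2) ?_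
            rw [upd_inp]
            have h1 := RunLe.push (.inq : Reg) false
              ({s with w := s.w.drop (i + 1), w' := (s.w.take i).reverse,
                       a := List.replicate (e.val s.env - (i + 1)) true ++ false :: s.a} :
                             Sta).toFun
            rw [upd_inq] at h1
            exact h1
          · rw [hb] at e2
            refine RunLe.pop_true (l := s.w.drop (i + 1)) (by simpa [Sta.toFun] using e2) ?_
            rw [upd_inp]
            have h1 := RunLe.push (.inq : Reg) true
              ({s with w := s.w.drop (i + 1), w' := (s.w.take i).reverse,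
                       a := List.replicate (e.val s.env - (i + 1)) true ++ false :: s.a} :
                             Sta).toFun
            rw [upd_inq] at h1
            exact h1
        · have e2 : s.w.drop i = [] := List.drop_eq_nil_of_le (by omega)
          have e3 : s.w.drop (i + 1) = [] := List.drop_eq_nil_of_le (by omega)
          have e4 : s.w.take (i + 1) = s.w.take i := by
            rw [List.take_of_length_le (by omega), List.take_of_length_le (by omega)]
          rw [e3, e4, e2]
          refine (RunLe.pop_nil (by simp [Sta.toFun]) (RunLe.skip _)).mono (by omega)
      · simp only [Nat.sub_self, List.replicate_zero, List.nil_append]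
        have h7 := RunLe.loop_false (k := (.A : Reg))
          (p := .pop .inp .skip (.push .inq false) (.push .inq true))
          (s := ({s with w := s.w.drop (e.val s.env), w' := (s.w.take (e.val s.env)).reverse,
                         a := false :: s.a} : Sta).toFun)
          (l := s.a) rfl
        rw [upd_A] at h7
        exact h7
    · have hres : RunLe (restore : SP Reg)
          ({s with w := s.w.drop (e.val s.env), w' := (s.w.take (e.val s.env)).reverse} :
            Sta).toFun s.toFun (2 * m + 1) := by
        have h := restore_run ({s with w' := (s.w.take (e.val s.env)).reverse} : Sta)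
          (e.val s.env) rfl
        have e0 : ({s with w' := []} : Sta) = s := by rw [← hw']
        simp only at h
        rw [e0] at h
        exact h.mono (by omega)
      by_cases hiw : e.val s.env < s.w.length
      · have e2 : s.w.drop (e.val s.env) = s.w[e.val s.env] :: s.w.drop (e.val s.env + 1) :=
          List.drop_eq_getElem_cons hiw
        have hval : s.w.getD (e.val s.env) false = s.w[e.val s.env] := by
          simp [List.getElem?_eq_getElem hiw]
        rcases hb : s.w[e.val s.env] with _ | _
        · rw [hb] at e2 hval
          have h9 := RunLe.pop_false (k := (.inp : Reg)) (e := .seq restore q)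
            (f := .seq (.push .inp false) (.seq restore q))
            (t := .seq (.push .inp true) (.seq restore p))
            (s := ({s with w := s.w.drop (e.val s.env),
                           w' := (s.w.take (e.val s.env)).reverse} : Sta).toFun)
            (l := s.w.drop (e.val s.env + 1)) (by simpa [Sta.toFun] using e2)
            (s' := s') (T := 1 + ((2 * m + 1) + T)) (by
              rw [upd_inp]
              have h1 := RunLe.push (.inp : Reg) false
                ({s with w := s.w.drop (e.val s.env + 1),
                         w' := (s.w.take (e.val s.env)).reverse} : Sta).toFun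
              rw [upd_inp] at h1
              refine RunLe.seq h1 (RunLe.seq ?_ (hQ hval))
              simp only [Sta.toFun]
              rw [← e2]
              exact hres)
          exact h9.mono (by omega)
        · rw [hb] at e2 hval
          have h9 := RunLe.pop_true (k := (.inp : Reg)) (e := .seq restore q)
            (f := .seq (.push .inp false) (.seq restore q))
            (t := .seq (.push .inp true) (.seq restore p))
            (s := ({s with w := s.w.drop (e.val s.env),
                           w' := (s.w.take (e.val s.env)).reverse} : Sta).toFun)
            (l := s.w.drop (e.val s.env + 1)) (by simpa [Sta.toFun] using e2)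
            (s' := s') (T := 1 + ((2 * m + 1) + T)) (by
              rw [upd_inp]
              have h1 := RunLe.push (.inp : Reg) true
                ({s with w := s.w.drop (e.val s.env + 1),
                         w' := (s.w.take (e.val s.env)).reverse} : Sta).toFun
              rw [upd_inp] at h1
              refine RunLe.seq h1 (RunLe.seq ?_ (hP hval))
              simp only [Sta.toFun]
              rw [← e2]
              exact hres)
          exact h9.mono (by omega)
      · have e2 : s.w.drop (e.val s.env) = [] := List.drop_eq_nil_of_le (by omega)
        have hval : s.w.getD (e.val s.env) false = false := by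
          simp [List.getElem?_eq_none (not_lt.1 hiw)]
        have h9 := RunLe.pop_nil (k := (.inp : Reg)) (e := .seq restore q)
            (f := .seq (.push .inp false) (.seq restore q))
            (t := .seq (.push .inp true) (.seq restore p))
            (s := ({s with w := s.w.drop (e.val s.env),
                           w' := (s.w.take (e.val s.env)).reverse} : Sta).toFun)
            (by simpa [Sta.toFun] using not_lt.1 hiw)
            (s' := s') (T := (2 * m + 1) + T) (RunLe.seq hres (hQ hval))
        exact h9.mono (by omega)
  have h := counter_run e s hc hm key
  refine h.mono ?_
  simp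
  omega


/-- Moving a counter from `V` to `B`. -/
theorem move_VB (n : ℕ) (s : Sta) (v : List Bool)
    (hv : s.v = List.replicate n true ++ false :: v) :
    RunLe (.loop .V (.push .B true)) s.toFun
      ({s with v := v, b := List.replicate n true ++ s.b} : Sta).toFun (2 * n + 1) := by
  have h := RunLe.loop (k := (.V : Reg)) (p := .push .B true) (T := 1) (rest := false :: v)
    (s' := ({s with v := v, b := List.replicate n true ++ s.b} : Sta).toFun) n
    (fun i => ({s with v := List.replicate (n - i) true ++ false :: v,
                       b := List.replicate i true ++ s.b} : Sta).toFun)
    (fun i _ => rfl) ?_ ?_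
  · simp only [Nat.sub_zero, List.replicate_zero, List.nil_append] at h
    rw [← hv] at h
    exact h.mono (by omega)
  · intro i hi
    rw [upd_V]
    have h1 := RunLe.push (.B : Reg) true ({s with
      v := List.replicate (n - i - 1) true ++ false :: v,
      b := List.replicate i true ++ s.b} : Sta).toFun
    rw [upd_B] at h1
    have e1 : n - i - 1 = n - (i + 1) := by omega
    rw [e1] at h1
    rw [e1]
    exact h1
  · simp only [Nat.sub_self, List.replicate_zero, List.nil_append]
    have h1 := RunLe.loop_false (k := (.V : Reg)) (p := .push .B true)
      (s := ({s with v := false :: v, b := List.replicate n true ++ s.b} : Sta).toFun) (l := v) rfl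
    rw [upd_V] at h1
    exact h1

/-- Clearing a loop variable. -/
theorem clear_x (i : ℕ) (s : Sta) :
    RunLe (.loop (.x i) .skip) s.toFun
      ({s with env := Function.update s.env i 0} : Sta).toFun (s.env i + 1) := by
  have h := RunLe.loop (k := (.x i : Reg)) (p := .skip) (T := 0) (rest := [])
    (s' := ({s with env := Function.update s.env i 0} : Sta).toFun) (s.env i)
    (fun j => ({s with env := Function.update s.env i (s.env i - j)} : Sta).toFun)
    (fun j _ => by simp [Sta.toFun]) ?_ ?_
  · simp only [Nat.sub_zero, Function.update_eq_self] at h
    exact h.mono (by omega)
  · intro j hj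
    rw [List.append_nil, upd_x]
    simp only [Function.update_idem]
    have e1 : s.env i - j - 1 = s.env i - (j + 1) := by omega
    rw [e1]
    exact RunLe.skip _
  · rw [Nat.sub_self]
    exact RunLe.loop_nil (by simp [Sta.toFun])

/-- Setting the flag. -/
theorem setF_run (s : Sta) (b : Bool) (l : List Bool) (h : s.f = b :: l) :
    RunLe setF s.toFun ({s with f := true :: l} : Sta).toFun 2 := by
  have h1 := RunLe.push (.F : Reg) true ({s with f := l} : Sta).toFun
  rw [upd_F] at h1
  cases b
  · refine RunLe.pop_false (l := l) (by simpa [Sta.toFun] using h) ?_
    rw [upd_F]
    exact h1
  · refine RunLe.pop_true (l := l) (by simpa [Sta.toFun] using h) ?_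
    rw [upd_F]
    exact h1

theorem Q.comp_run (b : Q) : ∀ (m k : ℕ) (p q : SP Reg) (s : Sta)
    (s' : Reg → List Bool) (T : ℕ),
    s.c = [] → s.w' = [] → (∀ i, k ≤ i → s.env i = 0) → (∀ i, s.env i ≤ m) → s.w.length ≤ m →
    (b.val s.w k s.env = true → RunLe p s.toFun s' T) →
    (b.val s.w k s.env = false → RunLe q s.toFun s' T) →
    RunLe (b.comp k p q) s.toFun s' (b.tp.eval m + T) := by
  induction b with
  | tt =>
    intro m k p q s s' T _ _ _ _ _ hP _
    simpa [Q.comp, Q.tp] using hP rfl
  | not b ih =>
    intro m k p q s s' T hc hw' hk hm hw hP hQ
    simp only [Q.comp, Q.tp]
    exact ih m k q p s s' T hc hw' hk hm hw (fun h => hQ (by simp [Q.val, h]))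
      (fun h => hP (by simp [Q.val, h]))
  | and b c ihb ihc =>
    intro m k p q s s' T hc hw' hk hm hw hP hQ
    simp only [Q.comp, Q.tp, Polynomial.eval_add]
    rw [add_assoc]
    apply ihb _ _ _ _ s s' _ hc hw' hk hm hw
    · intro hb
      apply ihc _ _ _ _ s s' _ hc hw' hk hm hw
      · intro hcv
        exact hP (by simp [Q.val, hb, hcv])
      · intro hcv
        exact hQ (by simp [Q.val, hcv])
    · intro hb
      exact (hQ (by simp [Q.val, hb])).mono (by omega)
  | or b c ihb ihc =>
    intro m k p q s s' T hc hw' hk hm hw hP hQ
    simp only [Q.comp, Q.tp, Polynomial.eval_add]
    rw [add_assoc]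
    apply ihb _ _ _ _ s s' _ hc hw' hk hm hw
    · intro hb
      exact (hP (by simp [Q.val, hb])).mono (by omega)
    · intro hb
      apply ihc _ _ _ _ s s' _ hc hw' hk hm hw
      · intro hcv
        exact hP (by simp [Q.val, hcv])
      · intro hcv
        exact hQ (by simp [Q.val, hb, hcv])
  | lt e f =>
    intro m k p q s s' T hc hw' hk hm hw hP hQ
    exact lt_run e f p q s s' T hc hm (fun h => hP (by simp [Q.val, h]))
      (fun h => hQ (by simpa [Q.val] using h))
  | bit e =>
    intro m k p q s s' T hc hw' hk hm hw hP hQ
    exact bit_run e p q s s' T hc hw' hm hw (fun h => hP h) (fun h => hQ h)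
  | ex e b ih =>
    intro m k p q s s' T hc hw' hk hm hw hP hQ
    set n := e.val s.env with hn
    have hv := E.val_le hm e
    rw [← hn] at hv
    set fl : ℕ → Bool := fun j => (List.range j).any fun v =>
      b.val s.w (k + 1) (Function.update s.env k v) with hfl
    have hval : (Q.ex e b).val s.w k s.env = fl n := rfl
    have h0 := RunLe.push (.F : Reg) false s.toFun
    rw [upd_F] at h0
    have h1 := RunLe.push (.V : Reg) false ({s with f := false :: s.f} : Sta).toFun
    rw [upd_V] at h1
    have h2 := e.comp_run ({s with v := false :: s.v, f := false :: s.f} : Sta) hc hm
    have h3 := RunLe.push (.B : Reg) false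
      ({s with v := List.replicate n true ++ false :: s.v, f := false :: s.f} : Sta).toFun
    rw [upd_B] at h3
    have h4 := move_VB n
      ({s with v := List.replicate n true ++ false :: s.v,
               b := false :: s.b, f := false :: s.f} : Sta) s.v rfl
    have h5 : RunLe (.loop .B (.seq (b.comp (k + 1) setF .skip) (.push (.x k) true)) : SP Reg)
        ({s with b := List.replicate n true ++ false :: s.b, f := false :: s.f} : Sta).toFun
        ({s with f := fl n :: s.f, env := Function.update s.env k n} : Sta).toFun
        (n * (b.tp.eval (m + e.vp.eval m) + 2 + 1 + 1) + 1) := by
      have h := RunLe.loop (k := (.B : Reg))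
        (p := .seq (b.comp (k + 1) setF .skip) (.push (.x k) true))
        (T := b.tp.eval (m + e.vp.eval m) + 2 + 1) (rest := false :: s.b)
        (s' := ({s with f := fl n :: s.f, env := Function.update s.env k n} : Sta).toFun) n
        (fun j => ({s with b := List.replicate (n - j) true ++ false :: s.b,
                           f := fl j :: s.f,
                           env := Function.update s.env k j} : Sta).toFun)
        (fun j _ => by simp [Sta.toFun]) ?_ ?_
      · simp only [Nat.sub_zero] at h
        have e0 : Function.update s.env k 0 = s.env := by
          rw [← hk k le_rfl, Function.update_eq_self]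
        rw [e0] at h
        have e1 : fl 0 = false := by simp [hfl]
        rw [e1] at h
        exact h
      · intro j hj
        rw [upd_B]
        have e1 : n - j - 1 = n - (j + 1) := by omega
        rw [e1]
        have h7 := RunLe.push (.x k : Reg) true ({s with
          b := List.replicate (n - (j + 1)) true ++ false :: s.b,
          f := fl (j + 1) :: s.f,
          env := Function.update s.env k j} : Sta).toFun
        have e2 : (true :: ({s with
          b := List.replicate (n - (j + 1)) true ++ false :: s.b,
          f := fl (j + 1) :: s.f,
          env := Function.update s.env k j} : Sta).toFun (.x k)) =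
            List.replicate (j + 1) true := by simp [Sta.toFun, List.replicate_succ]
        rw [e2, upd_x] at h7
        simp only [Function.update_idem] at h7
        refine RunLe.seq ?_ h7
        have hfs : fl (j + 1) = (fl j || b.val s.w (k + 1) (Function.update s.env k j)) := by
          simp only [hfl, List.range_succ, List.any_append, List.any_cons, List.any_nil,
            Bool.or_false]
        apply ih (m + e.vp.eval m) (k + 1) setF .skip ({s with
          b := List.replicate (n - (j + 1)) true ++ false :: s.b,
          f := fl j :: s.f,
          env := Function.update s.env k j} : Sta) _ 2 hc hw'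
        · intro i hi
          show Function.update s.env k j i = 0
          rw [Function.update_of_ne (by omega)]
          exact hk i (by omega)
        · intro i
          show Function.update s.env k j i ≤ _
          by_cases hik : i = k
          · subst hik
            rw [Function.update_self]
            omega
          · rw [Function.update_of_ne hik]
            have := hm i
            omega
        · show s.w.length ≤ _
          omega
        · intro hb
          have hb' : b.val s.w (k + 1) (Function.update s.env k j) = true := hb
          rw [hfs, hb', Bool.or_true]
          exact setF_run _ (fl j) s.f rfl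
        · intro hb
          have hb' : b.val s.w (k + 1) (Function.update s.env k j) = false := hb
          rw [hfs, hb', Bool.or_false]
          exact (RunLe.skip _).mono (by omega)
      · simp only [Nat.sub_self, List.replicate_zero, List.nil_append]
        have h7 := RunLe.loop_false (k := (.B : Reg))
          (p := .seq (b.comp (k + 1) setF .skip) (.push (.x k) true))
          (s := ({s with b := false :: s.b, f := fl n :: s.f,
                         env := Function.update s.env k n} : Sta).toFun)
          (l := s.b) rfl
        rw [upd_B] at h7
        exact h7
    have h8 := clear_x k ({s with f := fl n :: s.f, env := Function.update s.env k n} : Sta)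
    simp only [Function.update_idem, Function.update_self] at h8
    have e0 : Function.update s.env k 0 = s.env := by rw [← hk k le_rfl, Function.update_eq_self]
    rw [e0] at h8
    have h9 : RunLe (.pop .F q q p : SP Reg) ({s with f := fl n :: s.f} : Sta).toFun s' (T + 1) := by
      rcases hb : fl n with _ | _
      · refine RunLe.pop_false (l := s.f) rfl ?_
        rw [upd_F]
        exact hQ (hval.trans hb)
      · refine RunLe.pop_true (l := s.f) rfl ?_
        rw [upd_F]
        exact hP (hval.trans hb)
    have h10 := RunLe.seq h0 (RunLe.seq h1 (RunLe.seq h2 (RunLe.seq h3 (RunLe.seq h4
      (RunLe.seq h5 (RunLe.seq h8 h9))))))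
    refine h10.mono ?_
    simp only [Q.tp, Polynomial.eval_add, Polynomial.eval_mul, Polynomial.eval_comp,
      Polynomial.eval_X, Polynomial.eval_ofNat]
    have : n * (b.tp.eval (m + e.vp.eval m) + 2 + 1 + 1) ≤
        e.vp.eval m * (b.tp.eval (m + e.vp.eval m) + 4) := Nat.mul_le_mul hv (by omega)
    omega

end Pool.Agent.PTL
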