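import Pool.Agent.PTL.Tests

/-!
# Tables of bits
-/

set_option autoImplicit false

namespace Pool.Agent.PTL

/-- The table of a function of several arguments less than the given bounds. -/
def tbl : List ℕ → (List ℕ → Bool) → List Bool
  | [], f => [f []]
  | b :: bs, f => (List.range b).flatMap fun v => tbl bs fun l => f (v :: l)

/-- The position of an entry. -/
def idx : List ℕ → List ℕ → ℕ
  | _ :: bs, v :: l => v * bs.prod + idx bs l
  | _, _ => 0

/-- The arguments are less than the bounds. -/
def Below : List ℕ → List ℕ → Prop
  | [], [] => True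
  | b :: bs, v :: l => v < b ∧ Below bs l
  | _, _ => False

theorem tbl_length (bs : List ℕ) : ∀ f, (tbl bs f).length = bs.prod := by
  induction bs with
  | nil => intro f; simp [tbl]
  | cons b bs ih =>
    intro f
    simp [tbl, List.length_flatMap, ih]

theorem idx_lt : ∀ (bs l : List ℕ), Below bs l → idx bs l < bs.prod
  | [], [], _ => by simp [idx]
  | b :: bs, v :: l, h => by
    have := idx_lt bs l h.2
    have h1 := h.1
    simp only [idx, List.prod_cons]
    have h2 : (v + 1) * bs.prod ≤ b * bs.prod := Nat.mul_le_mul_right _ h1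
    rw [add_mul, one_mul] at h2
    omega
  | [], _ :: _, h => h.elim
  | _ :: _, [], h => h.elim

theorem flatMap_getD {α : Type*} (P : ℕ) (d : α) (g : ℕ → List α) :
    ∀ (b v i : ℕ), (∀ v < b, (g v).length = P) → v < b → i < P →
      ((List.range b).flatMap g).getD (v * P + i) d = (g v).getD i d := by
  intro b
  induction b with
  | zero => intro v i _ hv; omega
  | succ b ih =>
    intro v i hg hv hi
    have hlen : ((List.range b).flatMap g).length = b * P := by
      rw [List.length_flatMap]
      have : ∀ v ∈ List.range b, (g v).length = P := fun v hv =>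
        hg v (by have := List.mem_range.1 hv; omega)
      rw [List.map_congr_left this]
      simp
    rw [List.range_succ, List.flatMap_append, List.flatMap_singleton]
    by_cases h : v = b
    · subst h
      rw [List.getD_append_right _ _ _ _ (by rw [hlen]; omega), hlen]
      congr 1
      omega
    · have hvb : v < b := by omega
      rw [List.getD_append _ _ _ _ (by
        rw [hlen]
        have h2 : (v + 1) * P ≤ b * P := Nat.mul_le_mul_right _ hvb
        rw [add_mul, one_mul] at h2
        omega)]
      exact ih v i (fun v hv => hg v (by omega)) hvb hi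

theorem tbl_getD : ∀ (bs l : List ℕ) (f : List ℕ → Bool), Below bs l →
    (tbl bs f).getD (idx bs l) false = f l
  | [], [], f, _ => by simp [tbl, idx]
  | b :: bs, v :: l, f, h => by
    rw [tbl, idx, flatMap_getD bs.prod false (fun v => tbl bs fun l => f (v :: l)) b v _
      (fun v _ => tbl_length bs _) h.1 (idx_lt bs l h.2)]
    exact tbl_getD bs l _ h.2
  | [], _ :: _, _, h => h.elim
  | _ :: _, [], _, h => h.elim

theorem tbl_congr : ∀ (bs : List ℕ) (f g : List ℕ → Bool), (∀ l, Below bs l → f l = g l) →
    tbl bs f = tbl bs g
  | [], f, g, h => by simp [tbl, h [] trivial]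
  | b :: bs, f, g, h => by
    simp only [tbl]
    apply List.flatMap_congr
    intro v hv
    exact tbl_congr bs _ _ fun l hl => h (v :: l) ⟨List.mem_range.1 hv, hl⟩

open Classical in
theorem IsP.tbl (bs : List ((ℕ → ℕ) → ℕ)) : ∀ (k : ℕ), (∀ b ∈ bs, IsE k b) →
    ∀ {φ : List Bool → (ℕ → ℕ) → List ℕ → Prop},
    (∀ k', k ≤ k' → ∀ ys : List ((ℕ → ℕ) → ℕ), ys.length = bs.length → (∀ y ∈ ys, IsE k' y) →
      IsT k' (fun w env => φ w env (ys.map (· env)))) →
    IsP k (fun w env => PTL.tbl (bs.map (· env)) fun l => decide (φ w env l)) := by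
  induction bs with
  | nil =>
    intro k _ φ h
    exact IsP.dec (h k le_rfl [] rfl (by simp))
  | cons b bs ih =>
    intro k hb φ h
    simp only [List.map_cons, PTL.tbl]
    refine IsP.loop (G := fun w env v => PTL.tbl (bs.map (· env)) fun l =>
      decide (φ w env (v :: l))) (hb b (by simp)) fun k' hk y hy => ?_
    refine ih k' (fun b hb' => (hb b (by simp [hb'])).mono hk)
      (φ := fun w env l => φ w env (y env :: l)) fun k'' hk' ys hys hy' => ?_
    exact h k'' (hk.trans hk') (y :: ys) (by simp [hys]) (by
      intro z hz
      rcases List.mem_cons.1 hz with rfl | hz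
      · exact hy.mono hk'
      · exact hy' z hz)

end Pool.Agent.PTL
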