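import Pool.Agent.PTL.Class

/-!
# Functions, relations and words given by expressions, tests and programs

The functions of the environment depend only on the variables below the depth `k`.
-/

set_option autoImplicit false

namespace Pool.Agent.PTL

/-- The function is the value of an expression in the variables below `k`. -/
def IsE (k : ℕ) (f : (ℕ → ℕ) → ℕ) : Prop :=
  (∃ e : E, ∀ env, e.val env = f env) ∧
    ∀ env env' : ℕ → ℕ, (∀ i < k, env i = env' i) → f env = f env'

/-- The relation is given by a test in the variables below `k`. -/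
def IsT (k : ℕ) (φ : List Bool → (ℕ → ℕ) → Prop) : Prop :=
  (∃ q : Q, ∀ w env, q.val w k env = true ↔ φ w env) ∧
    ∀ w (env env' : ℕ → ℕ), (∀ i < k, env i = env' i) → (φ w env ↔ φ w env')

/-- The word is the output of a program in the variables below `k`. -/
def IsP (k : ℕ) (F : List Bool → (ℕ → ℕ) → List Bool) : Prop :=
  (∃ p : P, ∀ w env, p.output w k env = F w env) ∧
    ∀ w (env env' : ℕ → ℕ), (∀ i < k, env i = env' i) → F w env = F w env'

theorem IsE.mono {k k' : ℕ} (hk : k ≤ k') {f : (ℕ → ℕ) → ℕ} (h : IsE k f) : IsE k' f :=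
  ⟨h.1, fun env env' he => h.2 env env' fun i hi => he i (hi.trans_le hk)⟩

theorem IsE.var (i : ℕ) : IsE (i + 1) (fun env => env i) :=
  ⟨⟨.var i, fun _ => rfl⟩, fun _ _ h => h i (Nat.lt_succ_self i)⟩

theorem IsE.const {k : ℕ} (c : ℕ) : IsE k (fun _ => c) :=
  ⟨⟨.const c, fun _ => rfl⟩, fun _ _ _ => rfl⟩

theorem IsE.add {k : ℕ} {f g : (ℕ → ℕ) → ℕ} (hf : IsE k f) (hg : IsE k g) :
    IsE k (fun env => f env + g env) := by
  obtain ⟨⟨e, he⟩, h⟩ := hf
  obtain ⟨⟨e', he'⟩, h'⟩ := hg
  exact ⟨⟨.add e e', fun env => by simp [E.val, he, he']⟩, fun env env' hi => by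
    beta_reduce
    rw [h env env' hi, h' env env' hi]⟩

theorem IsE.mul {k : ℕ} {f g : (ℕ → ℕ) → ℕ} (hf : IsE k f) (hg : IsE k g) :
    IsE k (fun env => f env * g env) := by
  obtain ⟨⟨e, he⟩, h⟩ := hf
  obtain ⟨⟨e', he'⟩, h'⟩ := hg
  exact ⟨⟨.mul e e', fun env => by simp [E.val, he, he']⟩, fun env env' hi => by
    beta_reduce
    rw [h env env' hi, h' env env' hi]⟩

theorem IsE.pred {k : ℕ} {f : (ℕ → ℕ) → ℕ} (hf : IsE k f) : IsE k (fun env => f env - 1) := by
  obtain ⟨⟨e, he⟩, h⟩ := hf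
  exact ⟨⟨.pred e, fun env => by simp [E.val, he]⟩, fun env env' hi => by
    beta_reduce
    rw [h env env' hi]⟩

theorem IsE.pow {k : ℕ} {f : (ℕ → ℕ) → ℕ} (hf : IsE k f) (n : ℕ) : IsE k (fun env => f env ^ n) := by
  induction n with
  | zero => simpa using IsE.const 1
  | succ n ih => simpa [pow_succ] using ih.mul hf

theorem IsT.congr {k : ℕ} {φ ψ : List Bool → (ℕ → ℕ) → Prop} (h : IsT k φ)
    (h' : ∀ w env, ψ w env ↔ φ w env) : IsT k ψ := by
  have : ψ = φ := by
    funext w env
    exact propext (h' w env)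
  rw [this]
  exact h

theorem IsT.const {k : ℕ} (p : Prop) : IsT k (fun _ _ => p) := by
  by_cases h : p
  · exact ⟨⟨.tt, fun w env => by simp [Q.val, h]⟩, fun _ _ _ _ => Iff.rfl⟩
  · exact ⟨⟨.not .tt, fun w env => by simp [Q.val, h]⟩, fun _ _ _ _ => Iff.rfl⟩

theorem IsT.lt {k : ℕ} {f g : (ℕ → ℕ) → ℕ} (hf : IsE k f) (hg : IsE k g) :
    IsT k (fun _ env => f env < g env) := by
  obtain ⟨⟨e, he⟩, h⟩ := hf
  obtain ⟨⟨e', he'⟩, h'⟩ := hg
  exact ⟨⟨.lt e e', fun w env => by simp [Q.val, he, he']⟩, fun w env env' hi => by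
    beta_reduce
    rw [h env env' hi, h' env env' hi]⟩

theorem IsT.bit {k : ℕ} {f : (ℕ → ℕ) → ℕ} (hf : IsE k f) :
    IsT k (fun w env => w.getD (f env) false = true) := by
  obtain ⟨⟨e, he⟩, h⟩ := hf
  exact ⟨⟨.bit e, fun w env => by simp [Q.val, he]⟩, fun w env env' hi => by
    beta_reduce
    rw [h env env' hi]⟩

theorem IsT.not {k : ℕ} {φ : List Bool → (ℕ → ℕ) → Prop} (h : IsT k φ) :
    IsT k (fun w env => ¬ φ w env) := by
  obtain ⟨⟨b, hb⟩, h⟩ := h
  refine ⟨⟨.not b, fun w env => ?_⟩, fun w env env' hi => by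
    beta_reduce
    rw [h w env env' hi]⟩
  simp [Q.val, ← hb]

theorem IsT.and {k : ℕ} {φ ψ : List Bool → (ℕ → ℕ) → Prop} (h : IsT k φ) (h' : IsT k ψ) :
    IsT k (fun w env => φ w env ∧ ψ w env) := by
  obtain ⟨⟨b, hb⟩, h⟩ := h
  obtain ⟨⟨b', hb'⟩, h'⟩ := h'
  refine ⟨⟨.and b b', fun w env => ?_⟩, fun w env env' hi => by
    beta_reduce
    rw [h w env env' hi, h' w env env' hi]⟩
  simp [Q.val, ← hb, ← hb']

theorem IsT.or {k : ℕ} {φ ψ : List Bool → (ℕ → ℕ) → Prop} (h : IsT k φ) (h' : IsT k ψ) :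
    IsT k (fun w env => φ w env ∨ ψ w env) := by
  obtain ⟨⟨b, hb⟩, h⟩ := h
  obtain ⟨⟨b', hb'⟩, h'⟩ := h'
  refine ⟨⟨.or b b', fun w env => ?_⟩, fun w env env' hi => by
    beta_reduce
    rw [h w env env' hi, h' w env env' hi]⟩
  simp [Q.val, ← hb, ← hb']

theorem IsT.imp {k : ℕ} {φ ψ : List Bool → (ℕ → ℕ) → Prop} (h : IsT k φ) (h' : IsT k ψ) :
    IsT k (fun w env => φ w env → ψ w env) :=
  (h.not.or h').congr fun _ _ => by tauto

theorem IsT.iff {k : ℕ} {φ ψ : List Bool → (ℕ → ℕ) → Prop} (h : IsT k φ) (h' : IsT k ψ) :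
    IsT k (fun w env => φ w env ↔ ψ w env) :=
  ((h.imp h').and (h'.imp h)).congr fun _ _ => by tauto

theorem IsT.le {k : ℕ} {f g : (ℕ → ℕ) → ℕ} (hf : IsE k f) (hg : IsE k g) :
    IsT k (fun _ env => f env ≤ g env) :=
  (IsT.lt hg hf).not.congr fun _ _ => by simp

theorem IsT.eq {k : ℕ} {f g : (ℕ → ℕ) → ℕ} (hf : IsE k f) (hg : IsE k g) :
    IsT k (fun _ env => f env = g env) :=
  ((IsT.le hf hg).and (IsT.le hg hf)).congr fun _ _ => by omega

theorem IsT.ne {k : ℕ} {f g : (ℕ → ℕ) → ℕ} (hf : IsE k f) (hg : IsE k g) :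
    IsT k (fun _ env => f env ≠ g env) := (IsT.eq hf hg).not

theorem IsT.ex {k : ℕ} {f : (ℕ → ℕ) → ℕ} {ψ : List Bool → (ℕ → ℕ) → ℕ → Prop} (hf : IsE k f)
    (h : ∀ k', k ≤ k' → ∀ y, IsE k' y → IsT k' (fun w env => ψ w env (y env))) :
    IsT k (fun w env => ∃ v < f env, ψ w env v) := by
  obtain ⟨⟨e, he⟩, hfi⟩ := hf
  obtain ⟨⟨q, hq⟩, -⟩ := h (k + 1) (Nat.le_succ k) _ (IsE.var k)
  have hind : ∀ v w (env env' : ℕ → ℕ), (∀ i < k, env i = env' i) →
      (ψ w env v ↔ ψ w env' v) := fun v => (h k le_rfl _ (IsE.const v)).2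
  refine ⟨⟨.ex e q, fun w env => ?_⟩, fun w env env' hi => ?_⟩
  · simp only [Q.val, List.any_eq_true, List.mem_range, he, hq]
    constructor
    · rintro ⟨v, hv, hψ⟩
      rw [Function.update_self] at hψ
      exact ⟨v, hv, (hind v w _ _ fun i hi => Function.update_of_ne (by omega) _ _).1 hψ⟩
    · rintro ⟨v, hv, hψ⟩
      refine ⟨v, hv, ?_⟩
      rw [Function.update_self]
      exact (hind v w _ _ fun i hi => Function.update_of_ne (by omega) _ _).2 hψ
  · beta_reduce
    rw [hfi env env' hi]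
    constructor
    · rintro ⟨v, hv, hψ⟩
      exact ⟨v, hv, (hind v w env env' hi).1 hψ⟩
    · rintro ⟨v, hv, hψ⟩
      exact ⟨v, hv, (hind v w env env' hi).2 hψ⟩

theorem IsT.all {k : ℕ} {f : (ℕ → ℕ) → ℕ} {ψ : List Bool → (ℕ → ℕ) → ℕ → Prop} (hf : IsE k f)
    (h : ∀ k', k ≤ k' → ∀ y, IsE k' y → IsT k' (fun w env => ψ w env (y env))) :
    IsT k (fun w env => ∀ v < f env, ψ w env v) :=
  (IsT.ex (ψ := fun w env v => ¬ ψ w env v) hf fun k' hk y hy => (h k' hk y hy).not).not.congr
    fun _ _ => by push Not; rfl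

theorem IsT.exists_finset {k : ℕ} {ι : Type*} (s : Finset ι)
    {φ : ι → List Bool → (ℕ → ℕ) → Prop} (h : ∀ i, IsT k (φ i)) :
    IsT k (fun w env => ∃ i ∈ s, φ i w env) := by
  classical
  induction s using Finset.induction_on with
  | empty => exact (IsT.const False).congr fun _ _ => by simp
  | insert i s hi ih => exact ((h i).or ih).congr fun _ _ => by simp

theorem IsT.exists {k : ℕ} {ι : Type*} [Finite ι]
    {φ : ι → List Bool → (ℕ → ℕ) → Prop} (h : ∀ i, IsT k (φ i)) :
    IsT k (fun w env => ∃ i, φ i w env) := by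
  cases nonempty_fintype ι
  exact (IsT.exists_finset Finset.univ h).congr fun _ _ => by simp

theorem IsP.congr {k : ℕ} {F G : List Bool → (ℕ → ℕ) → List Bool} (h : IsP k F)
    (h' : ∀ w env, G w env = F w env) : IsP k G := by
  have : G = F := by
    funext w env
    exact h' w env
  rw [this]
  exact h

theorem IsP.nil {k : ℕ} : IsP k (fun _ _ => []) :=
  ⟨⟨.nop, fun _ _ => rfl⟩, fun _ _ _ _ => rfl⟩

theorem IsP.emit {k : ℕ} (b : Bool) : IsP k (fun _ _ => [b]) :=
  ⟨⟨.emit b, fun _ _ => rfl⟩, fun _ _ _ _ => rfl⟩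

theorem IsP.append {k : ℕ} {F G : List Bool → (ℕ → ℕ) → List Bool} (h : IsP k F)
    (h' : IsP k G) : IsP k (fun w env => F w env ++ G w env) := by
  obtain ⟨⟨p, hp⟩, h⟩ := h
  obtain ⟨⟨p', hp'⟩, h'⟩ := h'
  refine ⟨⟨.seq p p', fun w env => by simp [P.output, hp, hp']⟩, fun w env env' hi => by
    beta_reduce
    rw [h w env env' hi, h' w env env' hi]⟩

theorem IsP.cons {k : ℕ} {F : List Bool → (ℕ → ℕ) → List Bool} (b : Bool) (h : IsP k F) :
    IsP k (fun w env => b :: F w env) := (IsP.emit b).append h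

open Classical in
theorem IsP.ite {k : ℕ} {φ : List Bool → (ℕ → ℕ) → Prop}
    {F G : List Bool → (ℕ → ℕ) → List Bool} (hφ : IsT k φ) (h : IsP k F)
    (h' : IsP k G) : IsP k (fun w env => if φ w env then F w env else G w env) := by
  obtain ⟨⟨q, hq⟩, hφ⟩ := hφ
  obtain ⟨⟨p, hp⟩, h⟩ := h
  obtain ⟨⟨p', hp'⟩, h'⟩ := h'
  refine ⟨⟨.ite q p p', fun w env => by simp only [P.output, hp, hp', hq]⟩,
    fun w env env' hi => by
      beta_reduce
      rw [h w env env' hi, h' w env env' hi]
      simp only [hφ w env env' hi]⟩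

open Classical in
theorem IsP.dec {k : ℕ} {φ : List Bool → (ℕ → ℕ) → Prop} (hφ : IsT k φ) :
    IsP k (fun w env => [decide (φ w env)]) :=
  (IsP.ite hφ (IsP.emit true) (IsP.emit false)).congr fun w env => by
    by_cases h : φ w env <;> simp [h]

theorem IsP.loop {k : ℕ} {f : (ℕ → ℕ) → ℕ} {G : List Bool → (ℕ → ℕ) → ℕ → List Bool}
    (hf : IsE k f)
    (h : ∀ k', k ≤ k' → ∀ y, IsE k' y → IsP k' (fun w env => G w env (y env))) :
    IsP k (fun w env => (List.range (f env)).flatMap fun v => G w env v) := by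
  obtain ⟨⟨e, he⟩, hfi⟩ := hf
  obtain ⟨⟨p, hp⟩, -⟩ := h (k + 1) (Nat.le_succ k) _ (IsE.var k)
  have hind : ∀ v w (env env' : ℕ → ℕ), (∀ i < k, env i = env' i) →
      G w env v = G w env' v := fun v => (h k le_rfl _ (IsE.const v)).2
  refine ⟨⟨.loop e p, fun w env => ?_⟩, fun w env env' hi => ?_⟩
  · simp only [P.output, he, hp]
    apply List.flatMap_congr
    intro v _
    rw [Function.update_self]
    exact hind v w _ _ fun i hi => Function.update_of_ne (by omega) _ _
  · beta_reduce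
    rw [hfi env env' hi]
    apply List.flatMap_congr
    intro v _
    exact hind v w env env' hi

theorem IsP.replicate {k : ℕ} {f : (ℕ → ℕ) → ℕ} (hf : IsE k f) (b : Bool) :
    IsP k (fun _ env => List.replicate (f env) b) :=
  (IsP.loop (G := fun _ _ _ => [b]) hf fun _ _ _ _ => IsP.emit b).congr fun _ env => by
    induction f env with
    | zero => rfl
    | succ n ih =>
      rw [List.range_succ, List.flatMap_append, ← ih, List.replicate_succ']
      simp

theorem PTC.of {F : List Bool → ℕ → List Bool}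
    (h : ∀ k L, IsE k L → IsP k (fun w env => F w (L env))) : PTC (fun w => F w w.length) := by
  obtain ⟨⟨p, hp⟩, -⟩ := h 1 _ (IsE.var 0)
  exact (PTC.ofP p).congr fun w => by rw [hp]; simp [env0]

/-- Find the parameter `N` from the length of the word. -/
theorem PTC.ofLen {len : ℕ → ℕ} (hlen : ∀ k N, IsE k N → IsE k (fun env => len (N env)))
    (hmono : StrictMono len) {F : List Bool → ℕ → List Bool}
    (h : ∀ k N, IsE k N → IsP k (fun w env => F w (N env))) :
    ∃ f, PTC f ∧ (∀ w N, w.length = len N → f w = F w N) ∧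
      ∀ w, (∀ N, w.length ≠ len N) → f w = [] := by
  classical
  refine ⟨fun w => (List.range (w.length + 1)).flatMap fun N =>
    if len N = w.length then F w N else [], ?_, ?_, ?_⟩
  · exact PTC.of (F := fun w L => (List.range (L + 1)).flatMap fun N =>
      if len N = L then F w N else []) fun k L hL =>
      IsP.loop (G := fun w env N => if len N = L env then F w N else [])
        (hL.add (IsE.const 1)) fun k' hk y hy =>
        (IsP.ite (IsT.eq (hlen k' y hy) (hL.mono hk)) (h k' y hy) IsP.nil).congr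
          fun w env => by congr
  · intro w N hN
    have hNL : N < w.length + 1 := by
      have : N ≤ len N := hmono.id_le N
      omega
    have : ∀ M ∈ List.range (w.length + 1), (if len M = w.length then F w M else []) =
        if M = N then F w N else [] := by
      intro M _
      by_cases h : M = N
      · subst h; simp [hN]
      · rw [if_neg h, if_neg (fun e => h (hmono.injective (e.trans hN)))]
    show (List.range (w.length + 1)).flatMap _ = _
    rw [List.flatMap_congr this]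
    clear this
    generalize w.length + 1 = L at hNL
    induction L with
    | zero => omega
    | succ n ih =>
      rw [List.range_succ, List.flatMap_append]
      by_cases h : N = n
      · subst h
        have : (List.range N).flatMap (fun M => if M = N then F w N else []) = [] := by
          rw [List.flatMap_eq_nil_iff]
          intro M hM
          rw [if_neg (by have := List.mem_range.1 hM; omega)]
        rw [this]
        simp
      · rw [ih (by omega)]
        simp [Ne.symm h]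
  · intro w hw
    show (List.range (w.length + 1)).flatMap _ = _
    rw [List.flatMap_eq_nil_iff]
    intro M _
    rw [if_neg (fun e => hw M e.symm)]

end Pool.Agent.PTL
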